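import Mathlib

/-!
# Sets without multiplicative cubes: the box theorem of Erdős with a power saving
-/

set_option autoImplicit false

namespace Pool.Agent.K3h28.SP

open Finset

/-- The vertex of the cube with opposite vertices `p`, `q` which is given by `S`. -/
def vtx {r : ℕ} (p q : Fin r → ℕ) (S : Finset (Fin r)) : Fin r → ℕ :=
  fun i => if i ∈ S then q i else p i

/-- the exponent `2 ^ (1 - r)` -/
noncomputable def ex (r : ℕ) : ℝ := 2 / 2 ^ r

lemma ex_pos (r : ℕ) : 0 < ex r := by unfold ex; positivity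

lemma ex_succ (r : ℕ) : ex (r + 1) = ex r / 2 := by
  unfold ex; rw [pow_succ]; field_simp

lemma ex_le (r : ℕ) : ex r / 2 ≤ 1 := by
  unfold ex
  have : (1 : ℝ) ≤ 2 ^ r := one_le_pow₀ (by norm_num)
  rw [div_div, div_le_one (by positivity)]
  linarith

lemma num_step (e P N c θ L : ℝ) (he : 0 ≤ e) (hP : 0 ≤ P) (hN : 0 < N)
    (hc : 0 < c) (hcθ : c ^ 2 = θ) (hNc : 1 ≤ c * N) (hL : L ≤ 2 * P * θ)
    (h : e ^ 2 ≤ P * (e + N ^ 2 * L)) : e ≤ 2 * (P * N) * c := by
  by_contra hcon
  push Not at hcon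
  have hPe : 0 ≤ P * e := mul_nonneg hP he
  have h1 : P * e ≤ e ^ 2 / 2 := by
    have h2 : 2 * P ≤ e := by
      calc 2 * P ≤ 2 * P * (c * N) := le_mul_of_one_le_right (by positivity) hNc
        _ ≤ e := by nlinarith
    nlinarith
  have h3 : P * (N ^ 2 * L) ≤ 2 * (P * N * c) ^ 2 := by
    calc P * (N ^ 2 * L) ≤ P * (N ^ 2 * (2 * P * θ)) := by gcongr
      _ = 2 * (P * N * c) ^ 2 := by rw [← hcθ]; ring
  have h4 : 0 ≤ P * N * c := by positivity
  have h5 : 2 * (P * N * c) ^ 2 < e ^ 2 / 2 := by nlinarith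
  nlinarith

/-- **The box theorem.** -/
theorem box (M : ℝ) (hM : 1 ≤ M) : ∀ (r : ℕ) (P : Fin r → Finset ℕ) (_ : ∀ i, M ≤ (P i).card)
    (E : Finset (Fin r → ℕ)) (_ : E ⊆ Fintype.piFinset P)
    (_ : ¬ ∃ p q : Fin r → ℕ, (∀ i, p i ≠ q i) ∧ ∀ S, vtx p q S ∈ E),
    (E.card : ℝ) ≤ 2 * (∏ i, ((P i).card : ℝ)) * M ^ (-(ex r)) := by
  intro r
  induction r with
  | zero =>
    intro P _ E _ hfree
    have hE : E = ∅ := by
      rw [Finset.eq_empty_iff_forall_notMem]
      intro z hz
      apply hfree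
      refine ⟨z, z, fun i => i.elim0, fun S => ?_⟩
      have : vtx z z S = z := by funext i; exact i.elim0
      rw [this]; exact hz
    rw [hE, Finset.card_empty]
    push_cast
    positivity
  | succ r ih =>
    intro P hP E hE hfree
    classical
    set P' : Fin r → Finset ℕ := fun i => P i.succ with hP'
    set Q : Finset (Fin r → ℕ) := Fintype.piFinset P' with hQ
    set H : ℕ → ℕ → Finset (Fin r → ℕ) := fun a b =>
      Q.filter (fun s => (Fin.cons a s : Fin (r + 1) → ℕ) ∈ E ∧
        (Fin.cons b s : Fin (r + 1) → ℕ) ∈ E) with hH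
    have hHfree : ∀ a b, a ≠ b → ((H a b).card : ℝ) ≤ 2 * (∏ i, ((P' i).card : ℝ)) * M ^ (-(ex r)) := by
      intro a b hab
      refine ih P' (fun i => hP i.succ) (H a b) (Finset.filter_subset _ _) ?_
      rintro ⟨p, q, hpq, hS⟩
      apply hfree
      refine ⟨Fin.cons a p, Fin.cons b q, ?_, ?_⟩
      · intro i
        refine Fin.cases ?_ (fun i => ?_) i
        · simpa using hab
        · simpa using hpq i
      · intro S
        have h1 := hS (univ.filter fun i : Fin r => i.succ ∈ S)
        rw [hH, Finset.mem_filter] at h1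
        by_cases h0 : (0 : Fin (r + 1)) ∈ S
        · have h2 : vtx (Fin.cons a p : Fin (r + 1) → ℕ) (Fin.cons b q) S =
              Fin.cons b (vtx p q (univ.filter fun i : Fin r => i.succ ∈ S)) := by
            funext i
            refine Fin.cases ?_ (fun i => ?_) i
            · simp [vtx, h0]
            · simp [vtx]
          rw [h2]
          exact h1.2.2
        · have h2 : vtx (Fin.cons a p : Fin (r + 1) → ℕ) (Fin.cons b q) S =
              Fin.cons a (vtx p q (univ.filter fun i : Fin r => i.succ ∈ S)) := by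
            funext i
            refine Fin.cases ?_ (fun i => ?_) i
            · simp [vtx, h0]
            · simp [vtx]
          rw [h2]
          exact h1.2.1
    -- degrees
    set deg : (Fin r → ℕ) → ℕ := fun s => ((P 0).filter fun a =>
      (Fin.cons a s : Fin (r + 1) → ℕ) ∈ E).card with hdeg
    have hEcard : E.card = ∑ s ∈ Q, deg s := by
      rw [Finset.card_eq_sum_card_fiberwise (f := fun z : Fin (r + 1) → ℕ => Fin.tail z) (t := Q)]
      · refine Finset.sum_congr rfl fun s _ => ?_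
        refine Finset.card_bij' (fun z _ => z 0) (fun a _ => Fin.cons a s) ?_ ?_ ?_ ?_
        · intro z hz
          rw [Finset.mem_filter] at hz ⊢
          have h1 := hE hz.1
          rw [Fintype.mem_piFinset] at h1
          refine ⟨h1 0, ?_⟩
          rw [← hz.2, Fin.cons_self_tail]
          exact hz.1
        · intro a ha
          rw [Finset.mem_filter] at ha ⊢
          exact ⟨ha.2, Fin.tail_cons _ _⟩
        · intro z hz
          rw [Finset.mem_filter] at hz
          rw [← hz.2]
          exact Fin.cons_self_tail z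
        · intro a _
          rfl
      · intro z hz
        have h1 := hE hz
        rw [Fintype.mem_piFinset] at h1
        show Fin.tail z ∈ _
        rw [Finset.mem_coe, hQ, Fintype.mem_piFinset]
        intro i
        exact h1 i.succ
    have hsq : ∑ s ∈ Q, (deg s : ℝ) ^ 2 = ∑ a ∈ P 0, ∑ b ∈ P 0, ((H a b).card : ℝ) := by
      have h1 : ∀ s, (deg s : ℝ) ^ 2 = ∑ a ∈ P 0, ∑ b ∈ P 0,
          (if (Fin.cons a s : Fin (r + 1) → ℕ) ∈ E ∧ (Fin.cons b s : Fin (r + 1) → ℕ) ∈ E
            then (1 : ℝ) else 0) := by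
        intro s
        have h2 : (deg s : ℝ) = ∑ a ∈ P 0, (if (Fin.cons a s : Fin (r + 1) → ℕ) ∈ E then (1 : ℝ) else 0) := by
          rw [hdeg, Finset.sum_boole]
        rw [h2, sq, Finset.sum_mul_sum]
        refine Finset.sum_congr rfl fun a _ => Finset.sum_congr rfl fun b _ => ?_
        by_cases ha : (Fin.cons a s : Fin (r + 1) → ℕ) ∈ E <;>
          by_cases hb : (Fin.cons b s : Fin (r + 1) → ℕ) ∈ E <;> simp [ha, hb]
      simp only [h1]
      rw [Finset.sum_comm]
      refine Finset.sum_congr rfl fun a _ => ?_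
      rw [Finset.sum_comm]
      refine Finset.sum_congr rfl fun b _ => ?_
      rw [hH, Finset.sum_boole]
    have hdiag : ∑ a ∈ P 0, ((H a a).card : ℝ) = E.card := by
      rw [hEcard]
      have h1 : ∀ s, (deg s : ℝ) = ∑ a ∈ P 0, (if (Fin.cons a s : Fin (r + 1) → ℕ) ∈ E then (1 : ℝ) else 0) := by
        intro s
        rw [hdeg, Finset.sum_boole]
      push_cast
      simp only [h1]
      rw [Finset.sum_comm]
      refine Finset.sum_congr rfl fun a _ => ?_
      rw [hH, Finset.sum_boole]
      simp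
    have hcs : (E.card : ℝ) ^ 2 ≤ (Q.card : ℝ) * ∑ s ∈ Q, (deg s : ℝ) ^ 2 := by
      rw [hEcard]
      push_cast
      exact sq_sum_le_card_mul_sum_sq
    have hQcard : (Q.card : ℝ) = ∏ i, ((P' i).card : ℝ) := by
      rw [hQ, Fintype.card_piFinset]; push_cast; rfl
    set θ : ℝ := M ^ (-(ex r)) with hθ
    have hM0 : 0 < M := by linarith
    have hθ0 : 0 < θ := Real.rpow_pos_of_pos hM0 _
    set c : ℝ := M ^ (-(ex (r + 1))) with hc
    have hc0 : 0 < c := Real.rpow_pos_of_pos hM0 _
    have hcθ : c ^ 2 = θ := by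
      rw [hc, hθ, ← Real.rpow_natCast, ← Real.rpow_mul hM0.le, ex_succ]
      congr 1
      push_cast
      ring
    have hP0 : M ≤ ((P 0).card : ℝ) := hP 0
    have hNc : 1 ≤ c * ((P 0).card : ℝ) := by
      have h1 : M ^ (-(1 : ℝ)) ≤ c := by
        apply Real.rpow_le_rpow_of_exponent_le hM
        rw [ex_succ]
        linarith [ex_le r]
      rw [Real.rpow_neg_one] at h1
      calc (1 : ℝ) = M⁻¹ * M := (inv_mul_cancel₀ hM0.ne').symm
        _ ≤ c * ((P 0).card : ℝ) := by gcongr
    obtain ⟨Pr, hPr⟩ : ∃ z : ℝ, z = ∏ i, ((P' i).card : ℝ) := ⟨_, rfl⟩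
    rw [← hPr] at hQcard
    simp only [← hPr] at hHfree
    have hPr0 : 0 ≤ Pr := by rw [hPr]; exact Finset.prod_nonneg fun i _ => Nat.cast_nonneg _
    have hmain : (E.card : ℝ) ^ 2 ≤ Pr * (E.card + ((P 0).card : ℝ) ^ 2 * (2 * Pr * θ)) := by
      refine hcs.trans ?_
      rw [hQcard]
      refine mul_le_mul_of_nonneg_left ?_ hPr0
      rw [hsq, ← hdiag]
      have h1 : ∀ a ∈ P 0, ∑ b ∈ P 0, ((H a b).card : ℝ) ≤
          (H a a).card + (P 0).card * (2 * Pr * θ) := by
        intro a ha
        rw [← Finset.add_sum_erase _ _ ha]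
        refine add_le_add le_rfl ?_
        calc ∑ b ∈ (P 0).erase a, ((H a b).card : ℝ) ≤ ∑ b ∈ (P 0).erase a, (2 * Pr * θ) := by
              refine Finset.sum_le_sum fun b hb => ?_
              exact hHfree a b (Finset.ne_of_mem_erase hb).symm
          _ = ((P 0).erase a).card * (2 * Pr * θ) := by rw [Finset.sum_const, nsmul_eq_mul]
          _ ≤ (P 0).card * (2 * Pr * θ) := by
              refine mul_le_mul_of_nonneg_right ?_ (by positivity)
              exact_mod_cast Finset.card_erase_le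
      calc ∑ a ∈ P 0, ∑ b ∈ P 0, ((H a b).card : ℝ)
          ≤ ∑ a ∈ P 0, ((H a a).card + (P 0).card * (2 * Pr * θ) : ℝ) := Finset.sum_le_sum h1
        _ = ∑ a ∈ P 0, ((H a a).card : ℝ) + ((P 0).card : ℝ) ^ 2 * (2 * Pr * θ) := by
            rw [Finset.sum_add_distrib, Finset.sum_const, nsmul_eq_mul]
            ring
    have hfin := num_step (E.card) Pr ((P 0).card) c θ (2 * Pr * θ) (by positivity) hPr0
      (by linarith) hc0 hcθ hNc le_rfl hmain
    have hprod : ∏ i, ((P i).card : ℝ) = Pr * ((P 0).card : ℝ) := by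
      rw [Fin.prod_univ_succ, hPr, mul_comm]
    rw [hprod]
    exact hfin

end Pool.Agent.K3h28.SP
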