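import Mathlib
import Pool.Agent.K3h28.SP.Box

/-!
# Sets of integers with many large prime factors and without multiplicative cubes are small
-/

set_option autoImplicit false

namespace Pool.Agent.K3h28.SP

open Finset

/-- The set `B` contains a multiplicative cube of dimension `r`. -/
def HasCube (r : ℕ) (B : Finset ℕ) : Prop :=
  ∃ (a : ℕ) (p q : Fin r → ℕ), 0 < a ∧ (∀ i, (p i).Prime) ∧ (∀ i, (q i).Prime) ∧
    Function.Injective (Sum.elim p q) ∧ ∀ S : Finset (Fin r), a * ∏ i, vtx p q S i ∈ B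

lemma inj_of_mono {r : ℕ} (p q : Fin r → ℕ) (hpq : ∀ i, p i ≠ q i)
    (h : ∀ S, StrictMono (vtx p q S)) : Function.Injective (Sum.elim p q) := by
  have h1 : ∀ i j, i < j → p i < p j := fun i j hij => by simpa [vtx] using h ∅ hij
  have h2 : ∀ i j, i < j → q i < q j := fun i j hij => by simpa [vtx] using h univ hij
  have h3 : ∀ i j, i < j → p i < q j := fun i j hij => by
    have h4 := h {j} hij
    simpa [vtx, hij.ne] using h4
  have h3' : ∀ i j, i < j → q i < p j := fun i j hij => by
    have h4 := h {i} hij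
    simpa [vtx, hij.ne'] using h4
  intro i j hij
  rcases i with i | i <;> rcases j with j | j <;> simp only [Sum.elim_inl, Sum.elim_inr] at hij
  · rcases lt_trichotomy i j with h5 | h5 | h5
    · have := h1 i j h5; omega
    · rw [h5]
    · have := h1 j i h5; omega
  · rcases lt_trichotomy i j with h5 | h5 | h5
    · have := h3 i j h5; omega
    · subst h5; exact absurd hij (hpq i)
    · have := h3' j i h5; omega
  · rcases lt_trichotomy i j with h5 | h5 | h5
    · have := h3' i j h5; omega
    · subst h5; exact absurd hij.symm (hpq i)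
    · have := h3 j i h5; omega
  · rcases lt_trichotomy i j with h5 | h5 | h5
    · have := h2 i j h5; omega
    · rw [h5]
    · have := h2 j i h5; omega

/-- **The number of the elements.** -/
theorem count (r x : ℕ) (y : ℝ) (hy : 2 ≤ y) (B : Finset ℕ) (hB : B ⊆ Ioc 0 x)
    (hr : ∀ n ∈ B, r ≤ (n.primeFactors.filter (fun p : ℕ => y ≤ (p : ℝ))).card)
    (hfree : ¬ HasCube r B) :
    (B.card : ℝ) ≤ 2 * ((Nat.log 2 x : ℝ) + 1) ^ r * x * (y / 2) ^ (-(ex r)) := by
  classical
  have hT : ∀ n, ∃ T : Finset ℕ, n ∈ B → T ⊆ n.primeFactors.filter (fun p : ℕ => y ≤ (p : ℝ)) ∧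
      T.card = r := by
    intro n
    by_cases hn : n ∈ B
    · obtain ⟨T, hT, hTr⟩ := Finset.exists_subset_card_eq (hr n hn)
      exact ⟨T, fun _ => ⟨hT, hTr⟩⟩
    · exact ⟨∅, fun h => absurd h hn⟩
  choose T hT using hT
  set s : ℕ → Fin r → ℕ := fun n => if h : (T n).card = r then ⇑((T n).orderEmbOfFin h)
    else fun _ => 0 with hs
  have hsT : ∀ n ∈ B, ∃ h : (T n).card = r, s n = ⇑((T n).orderEmbOfFin h) := by
    intro n hn
    exact ⟨(hT n hn).2, by rw [hs]; exact dif_pos (hT n hn).2⟩
  have hsmem : ∀ n ∈ B, ∀ i, s n i ∈ T n := by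
    intro n hn i
    obtain ⟨h, he⟩ := hsT n hn
    rw [he]
    exact Finset.orderEmbOfFin_mem _ _ _
  have hsprime : ∀ n ∈ B, ∀ i, (s n i).Prime ∧ y ≤ (s n i : ℝ) := by
    intro n hn i
    have h1 := (hT n hn).1 (hsmem n hn i)
    rw [Finset.mem_filter, Nat.mem_primeFactors] at h1
    exact ⟨h1.1.1, h1.2⟩
  have hsmono : ∀ n ∈ B, StrictMono (s n) := by
    intro n hn
    obtain ⟨h, he⟩ := hsT n hn
    rw [he]
    exact OrderEmbedding.strictMono _
  have hprod : ∀ n ∈ B, ∏ i, s n i = ∏ p ∈ T n, p := by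
    intro n hn
    obtain ⟨h, he⟩ := hsT n hn
    rw [he]
    have h1 : ∏ p ∈ T n, p = ∏ p ∈ (univ.map ((T n).orderEmbOfFin h).toEmbedding), p := by
      rw [Finset.map_orderEmbOfFin_univ]
    rw [h1, Finset.prod_map]
    rfl
  have hdvd : ∀ n ∈ B, ∏ i, s n i ∣ n := by
    intro n hn
    rw [hprod n hn]
    refine (Finset.prod_dvd_prod_of_subset _ _ _ ?_).trans (Nat.prod_primeFactors_dvd n)
    exact (hT n hn).1.trans (Finset.filter_subset _ _)
  set a : ℕ → ℕ := fun n => n / ∏ i, s n i with ha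
  have hna : ∀ n ∈ B, n = a n * ∏ i, s n i := fun n hn => (Nat.div_mul_cancel (hdvd n hn)).symm
  have hBx : ∀ n ∈ B, 0 < n ∧ n ≤ x := fun n hn => Finset.mem_Ioc.1 (hB hn)
  have ha0 : ∀ n ∈ B, 0 < a n := by
    intro n hn
    rcases Nat.eq_zero_or_pos (a n) with h | h
    · have h1 := hna n hn
      rw [h, zero_mul] at h1
      have := (hBx n hn).1
      omega
    · exact h
  set e : ℕ → Fin r → ℕ := fun n i => Nat.log 2 (s n i) with he
  have hele : ∀ n ∈ B, ∀ i, 2 ^ (e n i) ≤ s n i := fun n hn i =>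
    Nat.pow_log_le_self 2 (hsprime n hn i).1.ne_zero
  have helt : ∀ n ∈ B, ∀ i, s n i < 2 ^ (e n i + 1) := fun n _ i =>
    Nat.lt_pow_succ_log_self (by norm_num) _
  have hsx : ∀ n ∈ B, ∀ i, s n i ≤ x := by
    intro n hn i
    refine le_trans (Nat.le_of_dvd (hBx n hn).1 ?_) (hBx n hn).2
    exact (Finset.dvd_prod_of_mem _ (Finset.mem_univ i)).trans (hdvd n hn)
  have hM : (1 : ℝ) ≤ y / 2 := by linarith
  set θ : ℝ := (y / 2) ^ (-(ex r)) with hθ
  have hθ0 : 0 ≤ θ := by positivity
  -- the fibres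
  have hfib : ∀ (ε : Fin r → ℕ) (b : ℕ), (((B.filter fun n => e n = ε).filter fun n => a n = b).card : ℝ) ≤
      2 * (∏ i, (2 : ℝ) ^ (ε i)) * θ := by
    intro ε b
    set F := (B.filter fun n => e n = ε).filter fun n => a n = b with hF
    have hFm : ∀ n ∈ F, n ∈ B ∧ e n = ε ∧ a n = b := by
      intro n hn
      rw [hF, Finset.mem_filter, Finset.mem_filter] at hn
      exact ⟨hn.1.1, hn.1.2, hn.2⟩
    rcases F.eq_empty_or_nonempty with h0 | ⟨n₀, hn₀⟩
    · rw [h0, Finset.card_empty]
      push_cast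
      positivity
    · have hinj : Set.InjOn s F := by
        intro n hn m hm hnm
        obtain ⟨h1, -, h2⟩ := hFm n hn
        obtain ⟨h3, -, h4⟩ := hFm m hm
        rw [hna n h1, hna m h3, h2, h4, hnm]
      have hcard : (F.image s).card = F.card := Finset.card_image_of_injOn hinj
      have hPc : ∀ i, ((Finset.Ico (2 ^ (ε i)) (2 ^ (ε i + 1))).card : ℝ) = 2 ^ (ε i) := by
        intro i
        rw [Nat.card_Ico, pow_succ]
        have : 2 ^ (ε i) * 2 - 2 ^ (ε i) = 2 ^ (ε i) := by omega
        rw [this]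
        push_cast
        rfl
      have hbox := box (y / 2) hM r (fun i => Finset.Ico (2 ^ (ε i)) (2 ^ (ε i + 1))) (by
        intro i
        rw [hPc i]
        obtain ⟨h1, h2, -⟩ := hFm n₀ hn₀
        have h3 := helt n₀ h1 i
        have h4 := (hsprime n₀ h1 i).2
        have h5 : ((s n₀ i : ℕ) : ℝ) < 2 ^ (e n₀ i + 1) := by exact_mod_cast h3
        rw [h2, pow_succ] at h5
        linarith) (F.image s) (by
        intro z hz
        rw [Finset.mem_image] at hz
        obtain ⟨n, hn, rfl⟩ := hz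
        obtain ⟨h1, h2, -⟩ := hFm n hn
        rw [Fintype.mem_piFinset]
        intro i
        rw [Finset.mem_Ico, ← h2]
        exact ⟨hele n h1 i, helt n h1 i⟩) (by
        rintro ⟨p, q, hpq, hS⟩
        apply hfree
        have hS' : ∀ S, ∃ n ∈ F, s n = vtx p q S := by
          intro S
          have := hS S
          rw [Finset.mem_image] at this
          exact this
        have hp : ∀ S : Finset (Fin r), ∀ i, (vtx p q S i).Prime := by
          intro S i
          obtain ⟨n, hn, hns⟩ := hS' S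
          rw [← hns]
          exact (hsprime n (hFm n hn).1 i).1
        refine ⟨b, p, q, ?_, ?_, ?_, ?_, ?_⟩
        · obtain ⟨h1, -, h2⟩ := hFm n₀ hn₀
          rw [← h2]
          exact ha0 n₀ h1
        · intro i
          have := hp ∅ i
          simpa [vtx] using this
        · intro i
          have := hp univ i
          simpa [vtx] using this
        · refine inj_of_mono p q hpq fun S => ?_
          obtain ⟨n, hn, hns⟩ := hS' S
          rw [← hns]
          exact hsmono n (hFm n hn).1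
        · intro S
          obtain ⟨n, hn, hns⟩ := hS' S
          obtain ⟨h1, -, h2⟩ := hFm n hn
          rw [← hns, ← h2, ← hna n h1]
          exact h1)
      rw [hcard] at hbox
      simp only [hPc] at hbox
      exact hbox
  -- the sum over `a`
  have hsum : ∀ ε : Fin r → ℕ, ((B.filter fun n => e n = ε).card : ℝ) ≤ 2 * x * θ := by
    intro ε
    set Q : ℕ := ∏ i, 2 ^ (ε i) with hQ
    have hQ0 : 0 < Q := Finset.prod_pos fun i _ => by positivity
    rw [Finset.card_eq_sum_card_fiberwise (f := a) (t := Ioc 0 (x / Q))]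
    · push_cast
      calc ∑ b ∈ Ioc 0 (x / Q), (((B.filter fun n => e n = ε).filter fun n => a n = b).card : ℝ)
          ≤ ∑ b ∈ Ioc 0 (x / Q), 2 * (∏ i, (2 : ℝ) ^ (ε i)) * θ :=
            Finset.sum_le_sum fun b _ => hfib ε b
        _ = ((x / Q : ℕ) : ℝ) * (2 * (Q : ℝ) * θ) := by
            rw [Finset.sum_const, Nat.card_Ioc, Nat.sub_zero, nsmul_eq_mul, hQ]
            push_cast
            rfl
        _ ≤ ((x : ℝ) / Q) * (2 * (Q : ℝ) * θ) := by
            refine mul_le_mul_of_nonneg_right Nat.cast_div_le (by positivity)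
        _ = 2 * x * θ := by
            have : (Q : ℝ) ≠ 0 := by exact_mod_cast hQ0.ne'
            field_simp
    · intro n hn
      have hn' : n ∈ B.filter fun n => e n = ε := hn
      rw [Finset.mem_filter] at hn'
      show a n ∈ _
      rw [Finset.mem_coe, Finset.mem_Ioc]
      refine ⟨ha0 n hn'.1, ?_⟩
      rw [Nat.le_div_iff_mul_le hQ0]
      calc a n * Q ≤ a n * ∏ i, s n i := by
            refine Nat.mul_le_mul_left _ ?_
            rw [hQ, ← hn'.2]
            exact Finset.prod_le_prod' fun i _ => hele n hn'.1 i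
        _ = n := (hna n hn'.1).symm
        _ ≤ x := (hBx n hn'.1).2
  rw [Finset.card_eq_sum_card_fiberwise (f := e)
    (t := Fintype.piFinset fun _ : Fin r => Finset.range (Nat.log 2 x + 1))]
  · push_cast
    calc ∑ ε ∈ Fintype.piFinset fun _ : Fin r => Finset.range (Nat.log 2 x + 1),
          ((B.filter fun n => e n = ε).card : ℝ)
        ≤ ∑ ε ∈ Fintype.piFinset fun _ : Fin r => Finset.range (Nat.log 2 x + 1), 2 * x * θ :=
          Finset.sum_le_sum fun ε _ => hsum ε
      _ = ((Nat.log 2 x : ℝ) + 1) ^ r * (2 * x * θ) := by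
          rw [Finset.sum_const, nsmul_eq_mul, Fintype.card_piFinset]
          simp
      _ = 2 * ((Nat.log 2 x : ℝ) + 1) ^ r * x * θ := by ring
  · intro n hn
    show e n ∈ _
    rw [Finset.mem_coe, Fintype.mem_piFinset]
    intro i
    rw [Finset.mem_range]
    have := Nat.log_mono_right (b := 2) (hsx n hn i)
    show Nat.log 2 (s n i) < _
    omega

end Pool.Agent.K3h28.SP
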