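import Mathlib
import Pool.Agent.K3h28.SP.Count
import Pool.Agent.K3h28.AF.Ind
import Pool.Agent.K3h28.AF.Dens
import Pool.Agent.K3h28.NF.VHyp
import Pool.Agent.H297R2.Tuples

/-!
# Logarithms of the integers of sparse sets
-/

set_option autoImplicit false

namespace Pool.Agent.K3h28.SP

open Finset
open Pool.Agent.H301R2.SSE (QB mem_QB)
open Pool.Agent.H297R2 (NoRel)

/-- the directions of a multiplicative cube -/
theorem cube_dirs (r : ℕ) (B : Finset ℕ) (hB : HasCube r B) :
    ∃ (v₀ : ℂ) (w : Fin r → ℂ), (∀ i, IsAlgebraic ℚ (Complex.exp (w i))) ∧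
      LinearIndependent ℚ w ∧ ∀ S : Finset (Fin r), ∃ n ∈ B, (Real.log (n : ℝ) : ℂ) = v₀ + ∑ i ∈ S, w i := by
  classical
  obtain ⟨a, p, q, ha, hp, hq, hinj, hS⟩ := hB
  have hpq : ∀ i j, p i ≠ q j := fun i j h => by
    have := hinj (a₁ := Sum.inl i) (a₂ := Sum.inr j) h
    exact absurd this (by simp)
  have hqq : ∀ i j, i ≠ j → q i ≠ q j := fun i j hij h =>
    hij (Sum.inr_injective (hinj (a₁ := Sum.inr i) (a₂ := Sum.inr j) h))
  have hli := Pool.Agent.K3h28.AF.log_indep (M := Unit) (fun _ n => (n : ℤ)) r p q (fun i _ => q i)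
    (fun i _ => by exact_mod_cast (hp i).ne_zero) (fun i _ => by exact_mod_cast (hq i).ne_zero)
    (fun i _ => hq i) (fun i _ => dvd_rfl) (fun i c c' hcc => absurd (Subsingleton.elim c c') hcc)
    (fun i _ _ h => by
      rw [Int.natCast_dvd_natCast, Nat.prime_dvd_prime_iff_eq (hq i) (hp i)] at h
      exact hpq i i h.symm)
    (fun i i' hii _ _ => by
      rw [Int.natCast_dvd_natCast, Nat.prime_dvd_prime_iff_eq (hq i) (hp i'),
        Int.natCast_dvd_natCast, Nat.prime_dvd_prime_iff_eq (hq i) (hq i')]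
      exact ⟨fun h => hpq i' i h.symm, hqq i i' hii.ne'⟩)
  set w : Fin r → ℂ := fun i => ((Real.log (q i) - Real.log (p i) : ℝ) : ℂ) with hw
  have hliw : LinearIndependent ℚ w := by
    have h1 := hli.comp (fun i : Fin r => (i, ())) (fun i j h => (Prod.ext_iff.1 h).1)
    convert h1 using 1
    funext i
    simp [hw]
  refine ⟨((Real.log a + ∑ i, Real.log (p i) : ℝ) : ℂ), w, ?_, hliw, ?_⟩
  · intro i
    have h1 : ((p i : ℕ) : ℝ) ≠ 0 := by exact_mod_cast (hp i).ne_zero
    have h2 : ((q i : ℕ) : ℝ) ≠ 0 := by exact_mod_cast (hq i).ne_zero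
    rw [hw]
    dsimp only
    rw [← Complex.ofReal_exp, ← Real.log_div h2 h1, Real.exp_log (by
      have := (hp i).pos; have := (hq i).pos; positivity)]
    have h3 : (((q i : ℝ) / (p i : ℝ) : ℝ) : ℂ) = algebraMap ℚ ℂ ((q i : ℚ) / (p i : ℚ)) := by
      push_cast
      simp
    rw [h3]
    exact isAlgebraic_algebraMap _
  · intro S
    refine ⟨_, hS S, ?_⟩
    have ha0 : (a : ℝ) ≠ 0 := by exact_mod_cast ha.ne'
    have hne : ∀ i ∈ (univ : Finset (Fin r)), ((vtx p q S i : ℕ) : ℝ) ≠ 0 := by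
      intro i _
      unfold vtx
      split_ifs
      · exact_mod_cast (hq i).ne_zero
      · exact_mod_cast (hp i).ne_zero
    rw [Nat.cast_mul, Nat.cast_prod, Real.log_mul ha0 (Finset.prod_ne_zero_iff.2 hne),
      Real.log_prod hne, hw, ← Complex.ofReal_sum, ← Complex.ofReal_add]
    congr 1
    rw [add_assoc, Finset.sum_sub_distrib]
    congr 1
    have h1 : ∀ i, Real.log ((vtx p q S i : ℕ) : ℝ) =
        Real.log (p i) + (if i ∈ S then Real.log (q i) - Real.log (p i) else 0) := by
      intro i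
      unfold vtx
      split_ifs
      · ring
      · ring
    simp only [h1]
    rw [Finset.sum_add_distrib, Finset.sum_ite_mem, Finset.univ_inter, Finset.sum_sub_distrib]

open Classical in
/-- the number of elements with few large prime factors -/
noncomputable def few (r : ℕ) (y : ℝ) (A : Finset ℕ) : ℕ :=
  (A.filter fun n => (n.primeFactors.filter (fun p : ℕ => y ≤ (p : ℝ))).card < r).card

/-- the bound for the number of exceptions -/
noncomputable def bnd (r x : ℕ) (y : ℝ) (A : Finset ℕ) : ℝ :=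
  few r y A + 2 * ((Nat.log 2 x : ℝ) + 1) ^ r * x * (y / 2) ^ (-(ex r))

lemma ex_anti {r s : ℕ} (h : r ≤ s) : ex s ≤ ex r := by
  unfold ex
  have : (2 : ℝ) ^ r ≤ 2 ^ s := pow_le_pow_right₀ (by norm_num) h
  gcongr

lemma bnd_mono {r s : ℕ} (h : r ≤ s) (x : ℕ) (y : ℝ) (hy : 2 ≤ y) (A : Finset ℕ) :
    bnd r x y A ≤ bnd s x y A := by
  unfold bnd
  have h1 : few r y A ≤ few s y A := by
    unfold few
    apply Finset.card_le_card
    intro n hn
    rw [Finset.mem_filter] at hn ⊢
    exact ⟨hn.1, hn.2.trans_le h⟩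
  have h2 : ((Nat.log 2 x : ℝ) + 1) ^ r ≤ ((Nat.log 2 x : ℝ) + 1) ^ s :=
    pow_le_pow_right₀ (by have : (0 : ℝ) ≤ (Nat.log 2 x : ℝ) := Nat.cast_nonneg _; linarith) h
  have h3 : (y / 2) ^ (-(ex r)) ≤ (y / 2) ^ (-(ex s)) :=
    Real.rpow_le_rpow_of_exponent_le (by linarith) (by linarith [ex_anti h])
  have h4 : (0 : ℝ) ≤ (y / 2) ^ (-(ex r)) := by positivity
  have h5 : ((few r y A : ℕ) : ℝ) ≤ few s y A := by exact_mod_cast h1
  refine add_le_add h5 ?_
  gcongr

lemma bnd_nonneg (r x : ℕ) (y : ℝ) (hy : 2 ≤ y) (A : Finset ℕ) : 0 ≤ bnd r x y A := by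
  unfold bnd; positivity

/-- sets without cubes -/
theorem card_free (r x : ℕ) (y : ℝ) (hy : 2 ≤ y) (A E : Finset ℕ) (hA : A ⊆ Ioc 0 x)
    (hE : E ⊆ A) (hfree : ∀ B ⊆ E, ¬ HasCube r B) : (E.card : ℝ) ≤ bnd r x y A := by
  classical
  rw [← Finset.card_filter_add_card_filter_not (s := E)
    (p := fun n : ℕ => (n.primeFactors.filter (fun p : ℕ => y ≤ (p : ℝ))).card < r)]
  unfold bnd
  push_cast
  refine add_le_add ?_ ?_
  · unfold few
    exact_mod_cast Finset.card_le_card (Finset.filter_subset_filter _ hE)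
  · refine count r x y hy _ (((Finset.filter_subset _ _).trans hE).trans hA) ?_
      (hfree _ (Finset.filter_subset _ _))
    intro n hn
    rw [Finset.mem_filter] at hn
    exact not_lt.1 hn.2

open Classical in
/-- **One variable.** -/
theorem log_one (σ : Type) [Fintype σ] (D : ℕ) : ∃ r : ℕ, ∀ (x : ℕ) (y : ℝ), 2 ≤ y →
    ∀ A : Finset ℕ, A ⊆ Ioc 0 x → ∀ t : σ → ℂ, NoRel QB D t →
      ((A.filter fun n : ℕ => ¬ NoRel QB D (Sum.elim t fun _ : Unit => (Real.log (n : ℝ) : ℂ))).card : ℝ) ≤
        bnd r x y A := by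
  obtain ⟨r, hr⟩ := Pool.Agent.K3h28.NF.cube_logs σ Unit D
  refine ⟨r, fun x y hy A hA t ht => ?_⟩
  refine card_free r x y hy A _ hA (Finset.filter_subset _ _) ?_
  intro B hB hcube
  obtain ⟨v₀, w, halg, hli, hw⟩ := cube_dirs r B hcube
  obtain ⟨S, hS⟩ := hr t ht (fun _ => v₀) (fun i _ => w i) (fun i _ => halg i) (by
    have h1 := hli.comp (fun z : Fin r × Unit => z.1) (fun z z' h => by
      rcases z with ⟨i, c⟩; rcases z' with ⟨j, c'⟩; simp only at h; subst h; rfl)
    exact h1)
  obtain ⟨n, hn, hlog⟩ := hw S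
  have h1 := (Finset.mem_filter.1 (hB hn)).2
  apply h1
  rw [hlog]
  exact hS

/-- the reindexing `(σ ⊕ Unit) ⊕ Fin k ≃ σ ⊕ Fin (k+1)` -/
def unitEquiv (σ : Type) (k : ℕ) : (σ ⊕ Unit) ⊕ Fin k ≃ σ ⊕ Fin (k + 1) where
  toFun s := match s with
    | Sum.inl (Sum.inl i) => Sum.inl i
    | Sum.inl (Sum.inr _) => Sum.inr 0
    | Sum.inr j => Sum.inr j.succ
  invFun s := match s with
    | Sum.inl i => Sum.inl (Sum.inl i)
    | Sum.inr j => Fin.cases (Sum.inl (Sum.inr ())) (fun j => Sum.inr j) j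
  left_inv s := by
    rcases s with (i | c) | j <;> simp
  right_inv s := by
    rcases s with i | j
    · rfl
    · refine Fin.cases ?_ (fun j => ?_) j <;> simp

open Classical in
/-- counting tuples by the first coordinate -/
theorem count_first (k : ℕ) (A : Finset ℕ) (bad : (Fin (k + 1) → ℕ) → Prop) (b c : ℝ)
    (E : Finset ℕ) (hE : E ⊆ A) (hEb : (E.card : ℝ) ≤ b) (hc : 0 ≤ c)
    (h : ∀ a ∈ A, a ∉ E → (((Fintype.piFinset fun _ : Fin k => A).filter
      (fun m => bad (Fin.cons a m))).card : ℝ) ≤ c) :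
    (((Fintype.piFinset fun _ : Fin (k + 1) => A).filter bad).card : ℝ) ≤
      b * (A.card : ℝ) ^ k + A.card * c := by
  set B := (Fintype.piFinset fun _ : Fin (k + 1) => A).filter bad with hB
  have hfib : B.card = ∑ a ∈ A, (B.filter (fun n => n 0 = a)).card := by
    apply Finset.card_eq_sum_card_fiberwise
    intro n hn
    have hn' : n ∈ B := hn
    rw [hB, Finset.mem_filter, Fintype.mem_piFinset] at hn'
    exact hn'.1 0
  have hle : ∀ a, (B.filter (fun n => n 0 = a)).card ≤
      ((Fintype.piFinset fun _ : Fin k => A).filter (fun m => bad (Fin.cons a m))).card := by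
    intro a
    apply Finset.card_le_card_of_injOn (fun n => Fin.tail n)
    · intro n hn
      have hn' : n ∈ B.filter (fun n => n 0 = a) := hn
      rw [Finset.mem_filter, hB, Finset.mem_filter, Fintype.mem_piFinset] at hn'
      have hcons : (Fin.cons a (Fin.tail n) : Fin (k + 1) → ℕ) = n := by
        rw [← hn'.2]; exact Fin.cons_self_tail n
      show Fin.tail n ∈ _
      rw [Finset.mem_coe, Finset.mem_filter, Fintype.mem_piFinset]
      refine ⟨fun j => hn'.1.1 j.succ, ?_⟩
      rw [hcons]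
      exact hn'.1.2
    · intro n hn m hm h
      have hn' : n ∈ B.filter (fun n => n 0 = a) := hn
      have hm' : m ∈ B.filter (fun n => n 0 = a) := hm
      rw [Finset.mem_filter] at hn' hm'
      rw [← Fin.cons_self_tail n, ← Fin.cons_self_tail m, hn'.2, hm'.2]
      have : Fin.tail n = Fin.tail m := h
      rw [this]
  have htriv : ∀ a, (((Fintype.piFinset fun _ : Fin k => A).filter (fun m => bad (Fin.cons a m))).card : ℝ) ≤
        (A.card : ℝ) ^ k := by
    intro a
    have h1 := Finset.card_filter_le (Fintype.piFinset fun _ : Fin k => A) (fun m => bad (Fin.cons a m))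
    rw [Fintype.card_piFinset] at h1
    simp only [Finset.prod_const, Finset.card_univ, Fintype.card_fin] at h1
    exact_mod_cast h1
  calc (B.card : ℝ) = ∑ a ∈ A, ((B.filter (fun n => n 0 = a)).card : ℝ) := by
        rw [hfib]; push_cast; rfl
    _ ≤ ∑ a ∈ A, ((if a ∈ E then (A.card : ℝ) ^ k else 0) + c) := by
        apply Finset.sum_le_sum
        intro a ha
        have h1 : ((B.filter (fun n => n 0 = a)).card : ℝ) ≤
          (((Fintype.piFinset fun _ : Fin k => A).filter (fun m => bad (Fin.cons a m))).card : ℝ) := by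
          exact_mod_cast hle a
        by_cases haE : a ∈ E
        · rw [if_pos haE]
          have h2 := htriv a
          linarith
        · rw [if_neg haE, zero_add]
          exact h1.trans (h a ha haE)
    _ = (E.card : ℝ) * (A.card : ℝ) ^ k + A.card * c := by
        rw [Finset.sum_add_distrib, ← Finset.sum_filter, Finset.filter_mem_eq_inter,
          Finset.inter_eq_right.2 hE, Finset.sum_const, Finset.sum_const,
          nsmul_eq_mul, nsmul_eq_mul]
    _ ≤ b * (A.card : ℝ) ^ k + A.card * c := by gcongr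

open Classical in
/-- **Tuples.** -/
theorem log_tuples (D k : ℕ) : ∀ (σ : Type) [Fintype σ], ∃ r : ℕ, ∀ (x : ℕ) (y : ℝ), 2 ≤ y →
    ∀ A : Finset ℕ, A ⊆ Ioc 0 x → ∀ t : σ → ℂ, NoRel QB D t →
      (((Fintype.piFinset fun _ : Fin k => A).filter fun n =>
        ¬ NoRel QB D (Sum.elim t fun i : Fin k => (Real.log (n i : ℝ) : ℂ))).card : ℝ) ≤
        k * (A.card : ℝ) ^ (k - 1) * bnd r x y A := by
  induction k with
  | zero =>
    intro σ _
    refine ⟨0, fun x y hy A hA t ht => ?_⟩
    rw [Finset.filter_false_of_mem]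
    · simp
    · intro n _
      push Not
      rw [← NoRel.reindex_iff (Equiv.sumEmpty σ (Fin 0)).symm]
      exact ht
  | succ k ih =>
    intro σ _
    obtain ⟨r₁, hr₁⟩ := log_one σ D
    obtain ⟨r₂, hr₂⟩ := ih (σ ⊕ Unit)
    refine ⟨max r₁ r₂, fun x y hy A hA t ht => ?_⟩
    set r := max r₁ r₂ with hr
    have hb₁ : bnd r₁ x y A ≤ bnd r x y A := bnd_mono (le_max_left _ _) x y hy A
    have hb₂ : bnd r₂ x y A ≤ bnd r x y A := bnd_mono (le_max_right _ _) x y hy A
    have hb0 : 0 ≤ bnd r x y A := bnd_nonneg _ _ _ hy _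
    have h1 := count_first k A
      (fun n => ¬ NoRel QB D (Sum.elim t fun i : Fin (k + 1) => (Real.log (n i : ℝ) : ℂ)))
      (bnd r x y A) (k * (A.card : ℝ) ^ (k - 1) * bnd r x y A)
      (A.filter fun n : ℕ => ¬ NoRel QB D (Sum.elim t fun _ : Unit => (Real.log (n : ℝ) : ℂ)))
      (Finset.filter_subset _ _) ((hr₁ x y hy A hA t ht).trans hb₁) (by positivity) (by
        intro a ha haE
        have hta : NoRel QB D (Sum.elim t fun _ : Unit => (Real.log (a : ℝ) : ℂ)) := by
          by_contra hcon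
          exact haE (Finset.mem_filter.2 ⟨ha, hcon⟩)
        have h2 := hr₂ x y hy A hA _ hta
        refine le_trans (le_trans ?_ h2) (mul_le_mul_of_nonneg_left hb₂ (by positivity))
        have h3 : (Fintype.piFinset fun _ : Fin k => A).filter (fun m => ¬ NoRel QB D
            (Sum.elim t fun i : Fin (k + 1) =>
              (Real.log (((Fin.cons a m : Fin (k + 1) → ℕ) i : ℕ) : ℝ) : ℂ))) ⊆
            (Fintype.piFinset fun _ : Fin k => A).filter fun n => ¬ NoRel QB D
              (Sum.elim (Sum.elim t fun _ : Unit => (Real.log (a : ℝ) : ℂ))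
                fun i : Fin k => (Real.log (n i : ℝ) : ℂ)) := by
          intro m hm
          rw [Finset.mem_filter] at hm ⊢
          refine ⟨hm.1, fun hno => hm.2 ?_⟩
          rw [← NoRel.reindex_iff (unitEquiv σ k)]
          have : (Sum.elim t (fun i : Fin (k + 1) =>
              (Real.log (((Fin.cons a m : Fin (k + 1) → ℕ) i : ℕ) : ℝ) : ℂ))) ∘ unitEquiv σ k =
              Sum.elim (Sum.elim t fun _ : Unit => (Real.log (a : ℝ) : ℂ))
                fun i : Fin k => (Real.log (m i : ℝ) : ℂ) := by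
            funext s
            rcases s with (i | c) | j <;> simp [unitEquiv]
          rw [this]
          exact hno
        have h4 := Finset.card_le_card h3
        have h5 : ((((Fintype.piFinset fun _ : Fin k => A).filter (fun m => ¬ NoRel QB D
            (Sum.elim t fun i : Fin (k + 1) =>
              (Real.log (((Fin.cons a m : Fin (k + 1) → ℕ) i : ℕ) : ℝ) : ℂ)))).card : ℕ) : ℝ) ≤
            ((((Fintype.piFinset fun _ : Fin k => A).filter fun n => ¬ NoRel QB D
              (Sum.elim (Sum.elim t fun _ : Unit => (Real.log (a : ℝ) : ℂ))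
                fun i : Fin k => (Real.log (n i : ℝ) : ℂ))).card : ℕ) : ℝ) := Nat.cast_le.2 h4
        refine le_trans (le_of_eq ?_) h5
        congr 2
        ext m
        simp only [Finset.mem_filter])
    have h6 : (k : ℝ) * (A.card : ℝ) ^ (k - 1) * A.card = k * (A.card : ℝ) ^ k := by
      rcases Nat.eq_zero_or_pos k with hk | hk
      · subst hk
        simp
      · obtain ⟨j, rfl⟩ : ∃ j, k = j + 1 := ⟨k - 1, by omega⟩
        simp only [Nat.add_sub_cancel]
        ring
    have h7 : bnd r x y A * (A.card : ℝ) ^ k + A.card * (k * (A.card : ℝ) ^ (k - 1) * bnd r x y A) =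
        ((k + 1 : ℕ) : ℝ) * (A.card : ℝ) ^ (k + 1 - 1) * bnd r x y A := by
      rw [Nat.add_sub_cancel]
      push_cast
      linear_combination (bnd r x y A) * h6
    rw [h7] at h1
    refine le_trans (le_of_eq ?_) h1
    congr 2
    ext m
    simp only [Finset.mem_filter]

end Pool.Agent.K3h28.SP
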