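import Mathlib
import Pool.Agent.K3h28.NF.VHyp
import Pool.Agent.K3h28.SP.Log
import Pool.Agent.H297R2.Generic

/-!
# The theorem on cubes with an explicit dimension
-/

set_option autoImplicit false

namespace Pool.Agent.K3h28.SP

open Finset Module
open Pool.Agent.H297R2 (NoRel Ex DegLE LinePoly exists_hom cube_nonvanish noRel_iff
  totalDegree_sum_monomial_le card_Ex)
open Pool.Agent.H301R2.SSE (QB mem_QB Lt Lt_rep Lt_mul Lt_alg Lt_log)
open Pool.Agent.K3h28.NF

/-- **No cube is entirely exceptional**, with an explicit dimension. -/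
theorem cube_freeX (κ C : Type*) [Field κ] [IsAlgClosed κ] [CharZero κ] [Field C] [Algebra κ C]
    (σ M : Type*) [Fintype σ] [Fintype M] (D h r : ℕ)
    (hr : r = Fintype.card (Ex (σ ⊕ M) D) * D *
      (Fintype.card M * Fintype.card (Ex (σ ⊕ M) D) + h + 1)) (t : σ → C) (ht : NoRel κ D t)
    (v₀ : M → C) (w : Fin r → M → C)
    (hw : ∀ (B : Finset (Fin r)), h < B.card → ∀ V : Submodule κ (B → κ), h < finrank κ V →
      ∀ α : M → C, (∀ T ∈ V, ∑ c, α c * ∑ i, T i • w i c = 0) → α = 0) :
    ∃ S : Finset (Fin r), NoRel κ D (Sum.elim t (fun c => v₀ c + ∑ i ∈ S, w i c)) := by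
  classical
  set I := Ex (σ ⊕ M) D with hI
  set d := Fintype.card I * D with hd
  set b := Fintype.card M * Fintype.card I + h + 1 with hb
  have e : Fin r ≃ Fin d × Fin b := by
    refine (Fintype.equivOfCardEq ?_)
    rw [Fintype.card_prod, Fintype.card_fin, Fintype.card_fin, Fintype.card_fin, hr]
  set U : Set C := Set.range t ∪ Set.range (fun p : Fin r × M => w p.1 p.2)
    ∪ Set.range v₀ with hU
  have hUf : U.Finite := ((Set.finite_range _).union (Set.finite_range _)).union (Set.finite_range _)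
  have htU : ∀ i, t i ∈ U := fun i => Or.inl (Or.inl ⟨i, rfl⟩)
  have hwU : ∀ k c, w k c ∈ U := fun k c => Or.inl (Or.inr ⟨(k, c), rfl⟩)
  have hvU : ∀ c, v₀ c ∈ U := fun c => Or.inr ⟨c, rfl⟩
  have hwide : ∀ g : Fin d, Wide κ h (fun (i : Fin b) => w (e.symm (g, i))) := by
    intro g V hV α hα
    set Bg : Finset (Fin r) := univ.image (fun i : Fin b => e.symm (g, i)) with hBg
    have hinj : Function.Injective (fun i : Fin b => e.symm (g, i)) := by
      intro i j hij
      exact (Prod.mk.inj (e.symm.injective hij)).2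
    have hBc : Bg.card = b := by
      rw [hBg, Finset.card_image_of_injective _ hinj, Finset.card_univ, Fintype.card_fin]
    -- the bijection
    let eB : Fin b ≃ Bg := Equiv.ofBijective
      (fun i => ⟨e.symm (g, i), Finset.mem_image.2 ⟨i, Finset.mem_univ _, rfl⟩⟩) (by
        constructor
        · intro i j hij
          exact hinj (congrArg Subtype.val hij)
        · rintro ⟨x, hx⟩
          obtain ⟨i, -, hi⟩ := Finset.mem_image.1 hx
          exact ⟨i, Subtype.ext hi⟩)
    let L : (Fin b → κ) ≃ₗ[κ] (Bg → κ) := LinearEquiv.funCongrLeft κ κ eB.symm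
    refine hw Bg (by omega) (V.map (L : (Fin b → κ) →ₗ[κ] (Bg → κ))) ?_ α ?_
    · rw [LinearEquiv.finrank_map_eq]
      exact hV
    · intro T hT
      obtain ⟨T', hT', rfl⟩ := hT
      rw [← hα T' hT']
      apply Finset.sum_congr rfl
      intro c _
      congr 1
      rw [← eB.sum_comp]
      apply Finset.sum_congr rfl
      intro i _
      have h1 : (L : (Fin b → κ) →ₗ[κ] (Bg → κ)) T' (eB i) = T' i := by
        show T' (eB.symm (eB i)) = T' i
        rw [Equiv.symm_apply_apply]
      rw [h1]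
      rfl
  obtain ⟨τ, hne, hspan⟩ := exists_eval D h (B := Fin b) (by rw [Fintype.card_fin, hb]; exact Nat.lt_succ_self _) t ht
    (G := Fin d) (fun g i => w (e.symm (g, i))) hwide U hUf htU (fun g i c => hwU _ _)
  set vA : M → Algebra.adjoin κ U := fun c => ⟨v₀ c, Algebra.subset_adjoin (hvU c)⟩ with hvA
  set wA : Fin r → M → Algebra.adjoin κ U :=
    fun k c => ⟨w k c, Algebra.subset_adjoin (hwU k c)⟩ with hwA
  obtain ⟨η, hη⟩ := cube_nonvanish d (evalDet D (fun j i => τ j ⟨t i, Algebra.subset_adjoin (htU i)⟩))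
    (evalDet_degLE D _) (evalDet_linePoly D _) hne
    (fun g i (p : Ex (σ ⊕ M) D × M) => τ p.1 (wA (e.symm (g, i)) p.2)) hspan
    (fun p => τ p.1 (vA p.2))
  refine ⟨univ.filter (fun k => η (e k).1 = some (e k).2), ?_⟩
  set S := univ.filter (fun k => η (e k).1 = some (e k).2) with hS
  have hcoe : (fun c => v₀ c + ∑ i ∈ S, w i c) =
      fun c => ((vA c + ∑ i ∈ S, wA i c : Algebra.adjoin κ U) : C) := by
    funext c
    push_cast
    rfl
  rw [hcoe]
  apply noRel_of_evalDet D t U htU τ
  convert hη using 2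
  funext p
  rw [map_add, Pi.add_apply, map_sum]
  congr 1
  rw [Finset.sum_apply, hS, Finset.sum_filter]
  rw [← e.symm.sum_comp]
  rw [Fintype.sum_prod_type]
  apply Finset.sum_congr rfl
  intro g _
  simp only [Equiv.apply_symm_apply]
  rcases hηg : η g with _ | i₀
  · simp
  · rw [Finset.sum_eq_single i₀]
    · simp
    · intro i _ hi
      rw [if_neg]
      intro h
      exact hi (Option.some.inj h).symm
    · intro h; exact absurd (mem_univ _) h

/-- **No cube of independent logarithms is entirely exceptional**, explicit form. -/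
theorem cube_logsX (σ : Type) [Fintype σ] (D r : ℕ)
    (hr : r = Fintype.card (Ex (σ ⊕ Unit) D) * D * (Fintype.card (Ex (σ ⊕ Unit) D) + 1))
    (t : σ → ℂ) (ht : NoRel QB D t) (v₀ : ℂ) (w : Fin r → ℂ)
    (halg : ∀ i, IsAlgebraic ℚ (Complex.exp (w i))) (hli : LinearIndependent ℚ w) :
    ∃ S : Finset (Fin r), NoRel QB D (Sum.elim t (fun _ : Unit => v₀ + ∑ i ∈ S, w i)) := by
  classical
  have hac : IsAlgClosed QB := (algebraicClosure.isAlgClosure ℚ ℂ).isAlgClosed
  refine cube_freeX QB ℂ σ Unit D 0 r (by rw [hr]; simp) t ht (fun _ => v₀)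
    (fun i _ => w i) ?_
  intro B _
  have hliQ := baker_indep w halg hli
  have h1 := wide_of_indep (M := Unit) (fun (i : B) _ => w i) (fun i c => Lt_log (halg _)) (by
    refine hliQ.comp (fun p : B × Unit => (p.1 : Fin r)) ?_
    rintro ⟨⟨i, hi⟩, c⟩ ⟨⟨j, hj⟩, c'⟩ h
    simp only at h
    subst h
    rfl)
  have h2 : Wide QB 0 (fun (i : B) (_ : Unit) => w i) := by simpa using h1
  exact h2

open Classical in
/-- **One variable**, explicit form. -/
theorem log_oneX (σ : Type) [Fintype σ] (D r : ℕ)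
    (hr : Fintype.card (Ex (σ ⊕ Unit) D) * D * (Fintype.card (Ex (σ ⊕ Unit) D) + 1) ≤ r)
    (x : ℕ) (y : ℝ) (hy : 2 ≤ y) (A : Finset ℕ) (hA : A ⊆ Ioc 0 x) (t : σ → ℂ)
    (ht : NoRel QB D t) :
    ((A.filter fun n : ℕ => ¬ NoRel QB D (Sum.elim t fun _ : Unit => (Real.log (n : ℝ) : ℂ))).card : ℝ) ≤
        bnd r x y A := by
  set r₀ := Fintype.card (Ex (σ ⊕ Unit) D) * D * (Fintype.card (Ex (σ ⊕ Unit) D) + 1) with hr₀
  refine le_trans ?_ (bnd_mono hr x y hy A)
  refine card_free r₀ x y hy A _ hA (Finset.filter_subset _ _) ?_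
  intro B hB hcube
  obtain ⟨v₀, w, halg, hli, hw⟩ := cube_dirs r₀ B hcube
  obtain ⟨S, hS⟩ := cube_logsX σ D r₀ hr₀ t ht v₀ w halg hli
  obtain ⟨n, hn, hlog⟩ := hw S
  have h1 := (Finset.mem_filter.1 (hB hn)).2
  apply h1
  rw [hlog]
  exact hS

/-- the number of monomials for a reindexed set of variables -/
theorem card_Ex' (σ : Type) [Fintype σ] (s D : ℕ) (hs : Fintype.card σ ≤ s) :
    Fintype.card (Ex (σ ⊕ Unit) D) ≤ (D + (s + 1)).choose (s + 1) := by
  classical
  have h1 : Fintype.card (Ex (σ ⊕ Unit) D) ≤ Fintype.card (Ex (Fin (s + 1)) D) := by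
    have hcard : Fintype.card (σ ⊕ Unit) ≤ Fintype.card (Fin (s + 1)) := by
      rw [Fintype.card_sum, Fintype.card_unit, Fintype.card_fin]
      omega
    obtain ⟨f⟩ := Function.Embedding.nonempty_of_card_le hcard
    refine Fintype.card_le_of_injective (fun z : Ex (σ ⊕ Unit) D =>
      (⟨z.1.mapDomain f, by rw [Finsupp.degree_mapDomain]; exact z.2⟩ : Ex (Fin (s + 1)) D)) ?_
    intro z z' h
    apply Subtype.ext
    exact Finsupp.mapDomain_injective f.injective (congrArg Subtype.val h)
  exact h1.trans (card_Ex (s + 1) D)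

/-- the explicit dimension for `s` variables and degree `D` -/
def dim (s D : ℕ) : ℕ := (D + s).choose s * D * ((D + s).choose s + 1)

lemma dim_mono {s s' : ℕ} (h : s ≤ s') (D : ℕ) : dim s D ≤ dim s' D := by
  have h1 : (D + s).choose s ≤ (D + s').choose s' := by
    rw [Nat.choose_symm_add.symm, Nat.choose_symm_add.symm]
    exact Nat.choose_le_choose D (by omega)
  unfold dim
  gcongr

lemma dim_ge (σ : Type) [Fintype σ] (s D : ℕ) (hs : Fintype.card σ + 1 ≤ s) :
    Fintype.card (Ex (σ ⊕ Unit) D) * D * (Fintype.card (Ex (σ ⊕ Unit) D) + 1) ≤ dim s D := by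
  have h1 := card_Ex' σ (s - 1) D (by omega)
  have h2 : s - 1 + 1 = s := by omega
  rw [h2] at h1
  unfold dim
  gcongr

lemma choose_bound (D s : ℕ) : (D + s).choose s ≤ (D + 1) ^ s := by
  induction s with
  | zero => simp
  | succ s ih =>
    have h1 := Nat.add_one_mul_choose_eq (D + s) s
    have h2 : (D + s + 1).choose (s + 1) * (s + 1) ≤ (D + 1) ^ (s + 1) * (s + 1) := by
      rw [← h1]
      calc (D + s + 1) * (D + s).choose s ≤ ((D + 1) * (s + 1)) * (D + 1) ^ s :=
            Nat.mul_le_mul (by nlinarith) ih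
        _ = (D + 1) ^ (s + 1) * (s + 1) := by ring
    exact Nat.le_of_mul_le_mul_right h2 (Nat.succ_pos s)

lemma dim_le (s D : ℕ) : dim s D ≤ 2 * (D + 1) ^ (2 * s + 1) := by
  have h1 := choose_bound D s
  have h2 : 1 ≤ (D + 1) ^ s := Nat.one_le_pow _ _ (Nat.succ_pos D)
  unfold dim
  calc (D + s).choose s * D * ((D + s).choose s + 1)
      ≤ (D + 1) ^ s * (D + 1) * ((D + 1) ^ s + (D + 1) ^ s) :=
        Nat.mul_le_mul (Nat.mul_le_mul h1 (Nat.le_succ D)) (Nat.add_le_add h1 h2)
    _ = 2 * (D + 1) ^ (2 * s + 1) := by ring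

open Classical in
/-- **Tuples**, explicit form. -/
theorem log_tuplesX (D k : ℕ) : ∀ (σ : Type) [Fintype σ] (r : ℕ), dim (Fintype.card σ + k) D ≤ r →
    ∀ (x : ℕ) (y : ℝ), 2 ≤ y →
    ∀ A : Finset ℕ, A ⊆ Ioc 0 x → ∀ t : σ → ℂ, NoRel QB D t →
      (((Fintype.piFinset fun _ : Fin k => A).filter fun n =>
        ¬ NoRel QB D (Sum.elim t fun i : Fin k => (Real.log (n i : ℝ) : ℂ))).card : ℝ) ≤
        k * (A.card : ℝ) ^ (k - 1) * bnd r x y A := by
  induction k with
  | zero =>
    intro σ _ r _ x y hy A hA t ht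
    rw [Finset.filter_false_of_mem]
    · simp
    · intro n _
      push Not
      rw [← NoRel.reindex_iff (Equiv.sumEmpty σ (Fin 0)).symm]
      exact ht
  | succ k ih =>
    intro σ _ r hr x y hy A hA t ht
    have hb0 : 0 ≤ bnd r x y A := bnd_nonneg _ _ _ hy _
    have h1 := count_first k A
      (fun n => ¬ NoRel QB D (Sum.elim t fun i : Fin (k + 1) => (Real.log (n i : ℝ) : ℂ)))
      (bnd r x y A) (k * (A.card : ℝ) ^ (k - 1) * bnd r x y A)
      (A.filter fun n : ℕ => ¬ NoRel QB D (Sum.elim t fun _ : Unit => (Real.log (n : ℝ) : ℂ)))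
      (Finset.filter_subset _ _) (log_oneX σ D r ((dim_ge σ _ D le_rfl).trans
        ((dim_mono (by omega) D).trans hr)) x y hy A hA t ht) (by positivity) (by
        intro a ha haE
        have hta : NoRel QB D (Sum.elim t fun _ : Unit => (Real.log (a : ℝ) : ℂ)) := by
          by_contra hcon
          exact haE (Finset.mem_filter.2 ⟨ha, hcon⟩)
        have h2 := ih (σ ⊕ Unit) r (by
          rw [Fintype.card_sum, Fintype.card_unit]
          refine le_trans (le_of_eq ?_) hr
          congr 1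
          ring) x y hy A hA _ hta
        refine le_trans ?_ h2
        have h3 : (Fintype.piFinset fun _ : Fin k => A).filter (fun m => ¬ NoRel QB D
            (Sum.elim t fun i : Fin (k + 1) =>
              (Real.log (((Fin.cons a m : Fin (k + 1) → ℕ) i : ℕ) : ℝ) : ℂ))) ⊆
            (Fintype.piFinset fun _ : Fin k => A).filter fun n => ¬ NoRel QB D
              (Sum.elim (Sum.elim t fun _ : Unit => (Real.log (a : ℝ) : ℂ))
                fun i : Fin k => (Real.log (n i : ℝ) : ℂ)) := by
          intro m hm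
          rw [Finset.mem_filter] at hm ⊢
          refine ⟨hm.1, fun hno => hm.2 ?_⟩
          rw [← NoRel.reindex_iff (unitEquiv σ k)]
          have : (Sum.elim t (fun i : Fin (k + 1) =>
              (Real.log (((Fin.cons a m : Fin (k + 1) → ℕ) i : ℕ) : ℝ) : ℂ))) ∘ unitEquiv σ k =
              Sum.elim (Sum.elim t fun _ : Unit => (Real.log (a : ℝ) : ℂ))
                fun i : Fin k => (Real.log (m i : ℝ) : ℂ) := by
            funext s
            rcases s with (i | c) | j <;> simp [unitEquiv]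
          rw [this]
          exact hno
        have h4 := Finset.card_le_card h3
        have h5 : ((((Fintype.piFinset fun _ : Fin k => A).filter (fun m => ¬ NoRel QB D
            (Sum.elim t fun i : Fin (k + 1) =>
              (Real.log (((Fin.cons a m : Fin (k + 1) → ℕ) i : ℕ) : ℝ) : ℂ)))).card : ℕ) : ℝ) ≤
            ((((Fintype.piFinset fun _ : Fin k => A).filter fun n => ¬ NoRel QB D
              (Sum.elim (Sum.elim t fun _ : Unit => (Real.log (a : ℝ) : ℂ))
                fun i : Fin k => (Real.log (n i : ℝ) : ℂ))).card : ℕ) : ℝ) := Nat.cast_le.2 h4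
        refine le_trans (le_of_eq ?_) h5
        congr 2
        ext m
        simp only [Finset.mem_filter])
    have h6 : (k : ℝ) * (A.card : ℝ) ^ (k - 1) * A.card = k * (A.card : ℝ) ^ k := by
      rcases Nat.eq_zero_or_pos k with hk | hk
      · subst hk
        simp
      · obtain ⟨j, rfl⟩ : ∃ j, k = j + 1 := ⟨k - 1, by omega⟩
        simp only [Nat.add_sub_cancel]
        ring
    have h7 : bnd r x y A * (A.card : ℝ) ^ k + A.card * (k * (A.card : ℝ) ^ (k - 1) * bnd r x y A) =
        ((k + 1 : ℕ) : ℝ) * (A.card : ℝ) ^ (k + 1 - 1) * bnd r x y A := by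
      rw [Nat.add_sub_cancel]
      push_cast
      linear_combination (bnd r x y A) * h6
    rw [h7] at h1
    refine le_trans (le_of_eq ?_) h1
    congr 2
    ext m
    simp only [Finset.mem_filter]

end Pool.Agent.K3h28.SP
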