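import Mathlib
import Pool.Agent.K3h28.SP.Log
import Pool.Agent.R333.Turan
import Pool.Agent.Helper923.HMertens

/-!
# Almost all integers have many large prime factors
-/

set_option autoImplicit false

namespace Pool.Agent.K3h28.SP

open Finset

/-- the threshold `exp √(log x)` -/
noncomputable def yy (x : ℕ) : ℝ := Real.exp (Real.sqrt (Real.log x))

theorem few_bound : ∃ L₀ : ℝ, 100 ≤ L₀ ∧ ∀ x : ℕ, L₀ ≤ Real.log (Real.log x) → ∀ r : ℕ,
    (r : ℝ) ≤ Real.log (Real.log x) / 8 →
    (few r (yy x) (Ioc 0 x) : ℝ) ≤ 32 * x / Real.log (Real.log x) := by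
  classical
  obtain ⟨C, hC0, hC⟩ := Pool.Agent.Helper923.HMertens.mertens_ratio
  refine ⟨max 100 (4 * (Real.log 8 + C)), le_max_left _ _, fun x hx r hr => ?_⟩
  set L := Real.log (Real.log x) with hL
  have hL100 : (100 : ℝ) ≤ L := (le_max_left _ _).trans hx
  have hLC : 4 * (Real.log 8 + C) ≤ L := (le_max_right _ _).trans hx
  set ℓ := Real.log x with hℓ
  have hℓ0 : 0 < ℓ := by
    by_contra hcon
    push Not at hcon
    rcases hcon.lt_or_eq with h1 | h1
    · have h2 : x = 0 ∨ 1 ≤ x := by omega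
      rcases h2 with h2 | h2
      · rw [hℓ, h2] at h1; simp at h1
      · have : 0 ≤ ℓ := Real.log_nonneg (by exact_mod_cast h2)
        linarith
    · rw [hL, h1, Real.log_zero] at hL100
      linarith
  have hℓL : ℓ = Real.exp L := (Real.exp_log hℓ0).symm
  have hℓ100 : (101 : ℝ) ≤ ℓ := by
    have := Real.add_one_le_exp L
    rw [← hℓL] at this
    linarith
  have hx1 : 1 < x := by
    by_contra hcon
    push Not at hcon
    have : (x : ℝ) ≤ 1 := by exact_mod_cast hcon
    have h2 : Real.log x ≤ 0 := Real.log_nonpos (by positivity) this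
    linarith
  have hx0 : (0 : ℝ) < x := by positivity
  have hxe : (x : ℝ) = Real.exp ℓ := (Real.exp_log hx0).symm
  set s := Real.sqrt ℓ with hs
  have hs0 : 0 < s := Real.sqrt_pos.2 hℓ0
  have hss : s * s = ℓ := Real.mul_self_sqrt hℓ0.le
  have hs10 : (10 : ℝ) ≤ s := by nlinarith
  have hy : yy x = Real.exp s := rfl
  have hlog2 : Real.log 2 < 0.6931471808 := Real.log_two_lt_d9
  have hlog20 : 0 < Real.log 2 := Real.log_pos (by norm_num)
  have hlog8 : Real.log 8 = 3 * Real.log 2 := by
    rw [show (8 : ℝ) = 2 ^ (3 : ℕ) by norm_num, Real.log_pow]; push_cast; ring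
  set a := ⌈yy x⌉₊ with ha
  set b := Nat.sqrt x with hb
  have hya : yy x ≤ a := Nat.le_ceil _
  have hy1 : (11 : ℝ) ≤ yy x := by
    rw [hy]
    have := Real.add_one_le_exp s
    linarith
  have ha2 : (a : ℝ) ≤ 2 * yy x := by
    have := Nat.ceil_lt_add_one (a := yy x) (by linarith)
    linarith
  have hsqrt : Real.exp (ℓ / 2) * Real.exp (ℓ / 2) = x := by
    rw [← Real.exp_add, hxe]; ring_nf
  have hbx : Real.exp (ℓ / 2) < (b : ℝ) + 1 := by
    have h1 : x < (b + 1) * (b + 1) := Nat.lt_succ_sqrt x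
    have h2 : (x : ℝ) < ((b : ℝ) + 1) * ((b : ℝ) + 1) := by exact_mod_cast h1
    rw [← hsqrt] at h2
    have h3 : 0 < Real.exp (ℓ / 2) := Real.exp_pos _
    nlinarith
  have hE2 : (2 : ℝ) ≤ Real.exp (ℓ / 2) := by
    have := Real.add_one_le_exp (ℓ / 2)
    linarith
  have hb2 : Real.exp (ℓ / 2) / 2 ≤ (b : ℝ) := by linarith
  have hbb : b * b ≤ x := Nat.sqrt_le x
  have hab : a ≤ b := by
    have h1 : 2 * Real.exp s ≤ Real.exp (ℓ / 2) / 2 := by
      have h2 : Real.exp (s + 2 * Real.log 2) ≤ Real.exp (ℓ / 2) := by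
        apply Real.exp_le_exp.2
        nlinarith
      rw [Real.exp_add, two_mul, Real.exp_add, Real.exp_log (by norm_num)] at h2
      linarith
    have h3 : (a : ℝ) ≤ b := by
      rw [hy] at ha2
      linarith
    exact_mod_cast h3
  have ha0 : 2 ≤ a := by
    have : (11 : ℝ) ≤ a := hy1.trans hya
    have h2 : 11 ≤ a := by exact_mod_cast this
    omega
  have hlogb : ℓ / 4 ≤ Real.log b := by
    have h1 : Real.log (Real.exp (ℓ / 2) / 2) ≤ Real.log b :=
      Real.log_le_log (by positivity) hb2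
    rw [Real.log_div (Real.exp_pos _).ne' (by norm_num), Real.log_exp] at h1
    linarith
  have hloga1 : s ≤ Real.log a := by
    have h1 : Real.log (Real.exp s) ≤ Real.log a := Real.log_le_log (Real.exp_pos _) (hy ▸ hya)
    rwa [Real.log_exp] at h1
  have hloga2 : Real.log a ≤ 2 * s := by
    have h1 : Real.log a ≤ Real.log (2 * Real.exp s) := by
      apply Real.log_le_log (by linarith [hy1.trans hya])
      rw [← hy]; exact ha2
    rw [Real.log_mul (by norm_num) (Real.exp_pos _).ne', Real.log_exp] at h1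
    linarith
  have hla0 : 0 < Real.log a := by linarith
  set P := (Ioc a b).filter Nat.Prime with hP
  set S : ℝ := ∑ p ∈ P, (1 : ℝ) / p with hS
  have hSL : L / 4 ≤ S := by
    have h1 := hC a b ha0 hab
    rw [abs_le] at h1
    have h2 : s / 8 ≤ Real.log b / Real.log a := by
      rw [le_div_iff₀ hla0]
      nlinarith
    have h3 : Real.log (s / 8) ≤ Real.log (Real.log b / Real.log a) :=
      Real.log_le_log (by positivity) h2
    have h4 : Real.log s = L / 2 := by
      rw [hs, Real.log_sqrt hℓ0.le, hL]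
    rw [Real.log_div hs0.ne' (by norm_num), h4] at h3
    have h5 : C / Real.log a ≤ C := div_le_self hC0 (by linarith)
    have h6 := h1.1
    linarith
  have hS4 : (25 : ℝ) ≤ S := by linarith
  have hPcard : (P.card : ℝ) ^ 2 ≤ x := by
    have h1 : P.card ≤ b := by
      refine (Finset.card_filter_le _ _).trans ?_
      rw [Nat.card_Ioc]; exact Nat.sub_le _ _
    have h2 : P.card * P.card ≤ x := (Nat.mul_le_mul h1 h1).trans hbb
    have h3 : ((P.card * P.card : ℕ) : ℝ) ≤ x := by exact_mod_cast h2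
    rw [sq]
    exact_mod_cast h3
  have htur := Pool.Agent.R333.Turan.turan P (fun p hp => (Finset.mem_filter.1 hp).2) (fun _ => 0) x
  rw [← hS] at htur
  set F := (Ioc 0 x).filter (fun n => (n.primeFactors.filter (fun p : ℕ => yy x ≤ (p : ℝ))).card < r)
    with hF
  have hfew : (few r (yy x) (Ioc 0 x) : ℝ) = F.card := by
    rw [hF]
    unfold few
    norm_cast
  have hlow : (F.card : ℝ) * (S ^ 2 / 4) ≤
      ∑ m ∈ Ioc 0 x, (Pool.Agent.R333.Turan.A P (fun _ => 0) m - S) ^ 2 := by
    calc (F.card : ℝ) * (S ^ 2 / 4) = ∑ m ∈ F, (S ^ 2 / 4) := by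
          rw [Finset.sum_const, nsmul_eq_mul]
      _ ≤ ∑ m ∈ F, (Pool.Agent.R333.Turan.A P (fun _ => 0) m - S) ^ 2 := by
          apply Finset.sum_le_sum
          intro m hm
          rw [hF, Finset.mem_filter] at hm
          have h1 : Pool.Agent.R333.Turan.A P (fun _ => 0) m ≤ r := by
            unfold Pool.Agent.R333.Turan.A
            rw [Finset.sum_boole]
            have h2 : (P.filter fun p => m ≡ 0 [MOD p]).card ≤
                (m.primeFactors.filter (fun p : ℕ => yy x ≤ (p : ℝ))).card := by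
              apply Finset.card_le_card
              intro p hp
              rw [Finset.mem_filter, hP, Finset.mem_filter, Finset.mem_Ioc] at hp
              rw [Finset.mem_filter, Nat.mem_primeFactors]
              have hm0 := (Finset.mem_Ioc.1 hm.1).1
              refine ⟨⟨hp.1.2, (Nat.modEq_zero_iff_dvd).1 hp.2, by omega⟩, ?_⟩
              have h3 : (a : ℝ) ≤ p := by exact_mod_cast hp.1.1.1.le
              linarith
            exact_mod_cast h2.trans hm.2.le
          have h4 : (r : ℝ) ≤ S / 2 := by linarith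
          nlinarith
      _ ≤ _ := Finset.sum_le_sum_of_subset_of_nonneg (Finset.filter_subset _ _)
          (fun _ _ _ => sq_nonneg _)
  rw [hfew]
  have hLpos : 0 < L := by linarith
  rw [le_div_iff₀ hLpos]
  have h8 : (F.card : ℝ) * (S ^ 2 / 4) ≤ x * S + 4 * x := by linarith
  have h9 : (F.card : ℝ) * S ≤ 8 * x := by
    have hS0 : 0 < S := by linarith
    by_contra hcon
    push Not at hcon
    have : (F.card : ℝ) * (S ^ 2 / 4) > 2 * x * S := by nlinarith
    nlinarith
  nlinarith [Nat.cast_nonneg (α := ℝ) F.card]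

end Pool.Agent.K3h28.SP
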