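import Mathlib
import Pool.Agent.K3h28.SP.CubeX
import Pool.Agent.K3h28.SP.Few

/-!
# Relations of growing degree between the logarithms of almost all tuples
-/

set_option autoImplicit false

namespace Pool.Agent.K3h28.SP

open Finset
open Pool.Agent.H301R2.SSE (QB mem_QB)
open Pool.Agent.H297R2 (NoRel)

lemma exp_num (L : ℝ) (hL : 100 ≤ L) :
    L * (L + 2) / 8 + 1 + Real.log 2 + Real.log L ≤ Real.exp (3 * L / 8) := by
  have h1 : (3 * L / 8) ^ 4 / 24 ≤ Real.exp (3 * L / 8) := by
    have := Real.pow_div_factorial_le_exp (3 * L / 8) (by positivity) 4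
    simpa [Nat.factorial] using this
  have h2 : Real.log 2 ≤ 1 := by have := Real.log_two_lt_d9; linarith
  have h3 : Real.log L ≤ L := (Real.log_le_sub_one_of_pos (by linarith)).trans (by linarith)
  have h4 : (10000 : ℝ) ≤ L ^ 2 := by nlinarith
  have h5 : 10000 * L ^ 2 ≤ L ^ 4 := by nlinarith [sq_nonneg L]
  have h6 : L ≤ L ^ 2 / 100 := by nlinarith
  have h7 : (3 * L / 8) ^ 4 / 24 = 81 / 98304 * L ^ 4 := by ring
  rw [h7] at h1
  nlinarith

/-- the term which comes from the theorem on cubes -/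
theorem main_term (x r : ℕ) (hx : 100 ≤ Real.log (Real.log x))
    (hr : (r : ℝ) ≤ Real.log (Real.log x) / 8) :
    2 * ((Nat.log 2 x : ℝ) + 1) ^ r * x * (yy x / 2) ^ (-(ex r)) ≤ x / Real.log (Real.log x) := by
  set L := Real.log (Real.log x) with hL
  set ℓ := Real.log x with hℓ
  have hℓ0 : 0 < ℓ := by
    by_contra hcon
    push Not at hcon
    rcases hcon.lt_or_eq with h1 | h1
    · have h2 : x = 0 ∨ 1 ≤ x := by omega
      rcases h2 with h2 | h2
      · rw [hℓ, h2] at h1; simp at h1
      · have : 0 ≤ ℓ := Real.log_nonneg (by exact_mod_cast h2)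
        linarith
    · rw [hL, h1, Real.log_zero] at hx
      linarith
  have hℓL : ℓ = Real.exp L := (Real.exp_log hℓ0).symm
  have hx1 : 1 < x := by
    by_contra hcon
    push Not at hcon
    have : (x : ℝ) ≤ 1 := by exact_mod_cast hcon
    have h2 : Real.log x ≤ 0 := Real.log_nonpos (by positivity) this
    linarith
  have hx0 : (0 : ℝ) < x := by positivity
  have hL0 : 0 < L := by linarith
  have hs : Real.sqrt ℓ = Real.exp (L / 2) := by
    rw [hℓL, ← Real.exp_half]
  have hy : yy x = Real.exp (Real.exp (L / 2)) := by unfold yy; rw [← hℓ, hs]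
  have hlog2 : Real.log 2 < 0.6931471808 := Real.log_two_lt_d9
  have hlog2' : 0.6931471803 < Real.log 2 := Real.log_two_gt_d9
  -- the power of the logarithm
  have h1 : ((Nat.log 2 x : ℝ) + 1) ≤ Real.exp (L + 2) := by
    have h2 : (Nat.log 2 x : ℝ) ≤ ℓ / Real.log 2 := by
      rw [le_div_iff₀ (by linarith)]
      have h3 : 2 ^ Nat.log 2 x ≤ x := Nat.pow_log_le_self 2 (by omega)
      have h4 : ((2 : ℝ) ^ Nat.log 2 x) ≤ x := by exact_mod_cast h3
      have h5 := Real.log_le_log (by positivity) h4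
      rwa [Real.log_pow] at h5
    have h6 : ℓ / Real.log 2 ≤ 2 * ℓ := by
      rw [div_le_iff₀ (by linarith)]
      nlinarith
    have h7 : (1 : ℝ) ≤ ℓ := by rw [hℓL]; exact Real.one_le_exp hL0.le
    have h8 : 3 * ℓ ≤ Real.exp (L + 2) := by
      rw [Real.exp_add, ← hℓL]
      have : (3 : ℝ) ≤ Real.exp 2 := by
        have := Real.add_one_le_exp (2 : ℝ); linarith
      nlinarith
    linarith
  have h2 : ((Nat.log 2 x : ℝ) + 1) ^ r ≤ Real.exp (L * (L + 2) / 8) := by
    calc ((Nat.log 2 x : ℝ) + 1) ^ r ≤ Real.exp (L + 2) ^ r := by gcongr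
      _ = Real.exp (r * (L + 2)) := by rw [← Real.exp_nat_mul]
      _ ≤ Real.exp (L * (L + 2) / 8) := by
          apply Real.exp_le_exp.2
          have : (r : ℝ) * (L + 2) ≤ L / 8 * (L + 2) := by gcongr
          linarith
  -- the power of `y`
  have h3 : (yy x / 2) ^ (-(ex r)) ≤ Real.exp (1 - Real.exp (3 * L / 8)) := by
    have hypos : 0 < yy x / 2 := by rw [hy]; positivity
    rw [Real.rpow_def_of_pos hypos]
    apply Real.exp_le_exp.2
    have h4 : Real.log (yy x / 2) = Real.exp (L / 2) - Real.log 2 := by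
      rw [hy, Real.log_div (Real.exp_pos _).ne' (by norm_num), Real.log_exp]
    rw [h4]
    have h5 : Real.exp (-(L / 8)) ≤ ex r := by
      unfold ex
      have h6 : (2 : ℝ) ^ r ≤ Real.exp (L / 8) := by
        calc (2 : ℝ) ^ r = Real.exp (r * Real.log 2) := by
              rw [mul_comm, Real.exp_mul, Real.exp_log (by norm_num), Real.rpow_natCast]
          _ ≤ Real.exp (L / 8) := by
              apply Real.exp_le_exp.2
              have : (r : ℝ) * Real.log 2 ≤ r * 1 := by gcongr; linarith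
              linarith
      rw [Real.exp_neg]
      have h7 : (0 : ℝ) < 2 ^ r := by positivity
      calc (Real.exp (L / 8))⁻¹ ≤ ((2 : ℝ) ^ r)⁻¹ := inv_anti₀ h7 h6
        _ ≤ 2 / 2 ^ r := by rw [div_eq_mul_inv]; nlinarith [inv_pos.2 h7]
    have h8 : ex r ≤ 2 := by
      unfold ex
      have : (1 : ℝ) ≤ 2 ^ r := one_le_pow₀ (by norm_num)
      rw [div_le_iff₀ (by positivity)]
      linarith
    have h9 : Real.exp (L / 2) * Real.exp (-(L / 8)) = Real.exp (3 * L / 8) := by
      rw [← Real.exp_add]; congr 1; ring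
    have h10 : (0 : ℝ) < Real.exp (L / 2) := Real.exp_pos _
    have h11 : (1 : ℝ) ≤ Real.exp (L / 2) := Real.one_le_exp (by linarith)
    -- `(E - log 2) * ex r ≥ E' - 1`
    have h12 : Real.exp (3 * L / 8) - 1 ≤ (Real.exp (L / 2) - Real.log 2) * ex r := by
      have h13 : Real.exp (-(L / 8)) ≤ 1 := Real.exp_le_one_iff.2 (by linarith)
      calc Real.exp (3 * L / 8) - 1 ≤ (Real.exp (L / 2) - Real.log 2) * Real.exp (-(L / 8)) := by
            rw [sub_mul, h9]
            have : Real.log 2 * Real.exp (-(L / 8)) ≤ 1 * 1 := by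
              apply mul_le_mul (by linarith) h13 (Real.exp_pos _).le (by norm_num)
            linarith
        _ ≤ (Real.exp (L / 2) - Real.log 2) * ex r := by
            apply mul_le_mul_of_nonneg_left h5
            linarith
    linarith
  have h4 := exp_num L hx
  have hb0 : (0 : ℝ) ≤ (yy x / 2) ^ (-(ex r)) := by
    have : 0 < yy x / 2 := by rw [hy]; positivity
    positivity
  calc 2 * ((Nat.log 2 x : ℝ) + 1) ^ r * x * (yy x / 2) ^ (-(ex r))
      ≤ 2 * Real.exp (L * (L + 2) / 8) * x * Real.exp (1 - Real.exp (3 * L / 8)) := by gcongr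
    _ = x * Real.exp (Real.log 2 + L * (L + 2) / 8 + (1 - Real.exp (3 * L / 8))) := by
        rw [Real.exp_add, Real.exp_add, Real.exp_log (by norm_num)]; ring
    _ ≤ x * Real.exp (-Real.log L) := by
        refine mul_le_mul_of_nonneg_left (Real.exp_le_exp.2 ?_) hx0.le
        linarith
    _ = x / L := by rw [Real.exp_neg, Real.exp_log hL0, div_eq_mul_inv]

open Classical in
/-- **Growing degree.** -/
theorem grow (k l : ℕ) : ∃ C : ℝ, 0 < C ∧ ∀ x D : ℕ, 16 ≤ x →
    16 * ((D : ℝ) + 1) ^ (2 * (k + l) + 1) ≤ Real.log (Real.log x) →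
    ∀ t : Fin l → ℂ, NoRel QB D t →
      (((Fintype.piFinset fun _ : Fin k => Ioc 0 x).filter fun n =>
        ¬ NoRel QB D (Sum.elim t fun i : Fin k => (Real.log (n i : ℝ) : ℂ))).card : ℝ) ≤
      C * x ^ k / Real.log (Real.log x) := by
  obtain ⟨L₀, hL₀, hfew⟩ := few_bound
  refine ⟨max L₀ (33 * k), lt_of_lt_of_le (by linarith) (le_max_left _ _), ?_⟩
  intro x D hx hD t ht
  set L := Real.log (Real.log x) with hL
  have hL0 : 0 < L := by
    refine lt_of_lt_of_le ?_ hD
    positivity
  have hx0 : (0 : ℝ) < x := by positivity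
  rcases lt_or_ge L L₀ with h | h
  · rw [le_div_iff₀ hL0]
    have h1 := Finset.card_filter_le (Fintype.piFinset fun _ : Fin k => Ioc 0 x) (fun n =>
        ¬ NoRel QB D (Sum.elim t fun i : Fin k => (Real.log (n i : ℝ) : ℂ)))
    rw [Fintype.card_piFinset] at h1
    simp only [Nat.card_Ioc, Finset.prod_const, Finset.card_univ, Fintype.card_fin, Nat.sub_zero] at h1
    have h2 : (((Fintype.piFinset fun _ : Fin k => Ioc 0 x).filter fun n =>
        ¬ NoRel QB D (Sum.elim t fun i : Fin k => (Real.log (n i : ℝ) : ℂ))).card : ℝ) ≤ (x : ℝ) ^ k := by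
      exact_mod_cast h1
    calc _ ≤ (x : ℝ) ^ k * L := by gcongr
      _ ≤ max L₀ (33 * k) * x ^ k := by
          rw [mul_comm]
          gcongr
          exact h.le.trans (le_max_left _ _)
  · set r := dim (k + l) D with hr
    have hrL : (r : ℝ) ≤ L / 8 := by
      have h1 := dim_le (k + l) D
      have h2 : (r : ℝ) ≤ 2 * ((D : ℝ) + 1) ^ (2 * (k + l) + 1) := by exact_mod_cast h1
      linarith
    have hy2 : 2 ≤ yy x := by
      unfold yy
      have h1 : 0 ≤ Real.sqrt (Real.log x) := Real.sqrt_nonneg _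
      have h2 : 1 ≤ Real.log x := by
        have h3 : 0 < Real.log x := by
          apply Real.log_pos
          exact_mod_cast (by omega : 1 < x)
        have h4 := Real.add_one_le_exp L
        rw [hL, Real.exp_log h3] at h4
        linarith
      have h3 : 1 ≤ Real.sqrt (Real.log x) := Real.one_le_sqrt.2 h2
      have := Real.add_one_le_exp (Real.sqrt (Real.log x))
      linarith
    have hb : bnd r x (yy x) (Ioc 0 x) ≤ 33 * x / L := by
      unfold bnd
      have h1 := hfew x h r hrL
      have h2 := main_term x r (hL₀.trans h) hrL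
      have h3 : (33 : ℝ) * x / L = 32 * x / L + x / L := by ring
      rw [h3]
      exact add_le_add h1 h2
    have hT := log_tuplesX D k (Fin l) r (by rw [Fintype.card_fin, hr, add_comm]) x (yy x) hy2
      (Ioc 0 x) (Finset.Subset.refl _) t ht
    refine hT.trans ?_
    rw [Nat.card_Ioc, Nat.sub_zero]
    rcases Nat.eq_zero_or_pos k with hk | hk
    · subst hk
      simp only [CharP.cast_eq_zero, zero_mul]
      positivity
    · obtain ⟨j, rfl⟩ : ∃ j, k = j + 1 := ⟨k - 1, by omega⟩
      calc ((j + 1 : ℕ) : ℝ) * (x : ℝ) ^ (j + 1 - 1) * bnd r x (yy x) (Ioc 0 x)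
          ≤ ((j + 1 : ℕ) : ℝ) * (x : ℝ) ^ (j + 1 - 1) * (33 * x / L) := by gcongr
        _ = (33 * ((j + 1 : ℕ) : ℝ)) * x ^ (j + 1) / L := by
            rw [Nat.add_sub_cancel, pow_succ]; ring
        _ ≤ max L₀ (33 * ((j + 1 : ℕ) : ℝ)) * x ^ (j + 1) / L := by
            gcongr
            exact le_max_right _ _

end Pool.Agent.K3h28.SP
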