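import Mathlib
import Pool.Agent.H442R2.KF.Bv

/-!
# The number of prime factors of shifted primes: second moment
-/

set_option autoImplicit false

namespace Pool.Agent.K3h28.SP

open Finset
open Pool.Agent.H442R2.KF (piAP piN Er)

/-- the residue of `-h` modulo `d`, replaced by `1` if it is not prime to `d` -/
noncomputable def res (h : ℤ) (d : ℕ) : ℕ :=
  if Nat.Coprime ((-h) % d).toNat d then ((-h) % d).toNat else 1

lemma res_coprime (h : ℤ) (d : ℕ) : Nat.Coprime (res h d) d := by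
  unfold res
  split_ifs with h1
  · exact h1
  · exact Nat.coprime_one_left d

lemma res_eq (h : ℤ) (d : ℕ) (hd : 0 < d) (hc : IsCoprime h (d : ℤ)) :
    res h d = ((-h) % d).toNat := by
  unfold res
  rw [if_pos]
  have h1 : (0 : ℤ) ≤ (-h) % d := Int.emod_nonneg _ (by exact_mod_cast hd.ne')
  rw [← Nat.isCoprime_iff_coprime, Int.toNat_of_nonneg h1]
  have h2 : IsCoprime (-h) (d : ℤ) := IsCoprime.neg_left hc
  have h3 : (-h) % (d : ℤ) = -h + (d : ℤ) * (-((-h) / d)) := by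
    have := Int.emod_add_mul_ediv (-h) d
    linarith
  rw [h3]
  exact IsCoprime.add_mul_left_left h2 _

lemma modEq_iff (h : ℤ) (d p : ℕ) (hd : 0 < d) (hc : IsCoprime h (d : ℤ)) :
    p ≡ res h d [MOD d] ↔ (d : ℤ) ∣ (p : ℤ) + h := by
  rw [res_eq h d hd hc, ← Int.natCast_modEq_iff]
  have h1 : (0 : ℤ) ≤ (-h) % d := Int.emod_nonneg _ (by exact_mod_cast hd.ne')
  rw [Int.toNat_of_nonneg h1]
  constructor
  · intro h2
    have h3 : (p : ℤ) ≡ -h [ZMOD d] := h2.trans (Int.mod_modEq _ _)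
    have h4 := (Int.modEq_iff_dvd.1 h3.symm)
    have h5 : (p : ℤ) - -h = p + h := by ring
    rwa [h5] at h4
  · intro h2
    have h3 : (p : ℤ) ≡ -h [ZMOD d] := by
      apply Int.ModEq.symm
      rw [Int.modEq_iff_dvd]
      have h5 : (p : ℤ) - -h = p + h := by ring
      rwa [h5]
    exact h3.trans (Int.mod_modEq _ _).symm

/-- the primes up to `N` -/
def PN (N : ℕ) : Finset ℕ := (Icc 1 N).filter Nat.Prime

/-- the number of the prime factors of `p + h` in `P` -/
noncomputable def om (P : Finset ℕ) (h : ℤ) (p : ℕ) : ℝ :=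
  ∑ s ∈ P, if (s : ℤ) ∣ (p : ℤ) + h then (1 : ℝ) else 0

lemma card_dvd (N : ℕ) (h : ℤ) (d : ℕ) (hd : 0 < d) (hc : IsCoprime h (d : ℤ)) :
    (((PN N).filter fun p : ℕ => (d : ℤ) ∣ (p : ℤ) + h).card : ℝ) =
      (piN N : ℝ) / (Nat.totient d : ℝ) + Er N d (res h d) := by
  unfold Er piAP PN
  rw [Finset.filter_filter]
  have h1 : (Icc 1 N).filter (fun p : ℕ => p.Prime ∧ (d : ℤ) ∣ (p : ℤ) + h) =
      (Icc 1 N).filter (fun p : ℕ => p.Prime ∧ p ≡ res h d [MOD d]) := by
    apply Finset.filter_congr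
    intro p _
    rw [modEq_iff h d p hd hc]
  rw [h1]
  ring

/-- **The second moment.** -/
theorem turan_shift (N : ℕ) (h : ℤ) (P : Finset ℕ) (hP : ∀ s ∈ P, s.Prime)
    (hPh : ∀ s ∈ P, IsCoprime h (s : ℤ)) (Q : ℕ) (hPQ : ∀ s ∈ P, ∀ s' ∈ P, s * s' ≤ Q) :
    ∑ p ∈ PN N, (om P h p - ∑ s ∈ P, 1 / ((s : ℝ) - 1)) ^ 2 ≤
      (piN N : ℝ) * (∑ s ∈ P, 1 / ((s : ℝ) - 1)) +
        (2 * (∑ s ∈ P, 1 / ((s : ℝ) - 1)) + 3) * ∑ d ∈ Icc 1 Q, |Er N d (res h d)| := by
  classical
  set S : ℝ := ∑ s ∈ P, 1 / ((s : ℝ) - 1) with hS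
  set π : ℝ := (piN N : ℝ) with hπ
  set E : ℕ → ℝ := fun d => |Er N d (res h d)| with hE
  have hE0 : ∀ d, 0 ≤ E d := fun d => abs_nonneg _
  set T : ℝ := ∑ d ∈ Icc 1 Q, E d with hT
  have hT0 : 0 ≤ T := Finset.sum_nonneg fun d _ => hE0 d
  have hs1 : ∀ s ∈ P, (0 : ℝ) < (s : ℝ) - 1 := by
    intro s hs
    have : (1 : ℝ) < s := by exact_mod_cast (hP s hs).one_lt
    linarith
  have hS0 : 0 ≤ S := Finset.sum_nonneg fun s hs => (div_pos one_pos (hs1 s hs)).le
  have hπ0 : 0 ≤ π := by rw [hπ]; positivity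
  have hcard : ((PN N).card : ℝ) = π := by
    rw [hπ]; rfl
  -- moments of the indicator
  have hind : ∀ d : ℕ, 0 < d → IsCoprime h (d : ℤ) → |∑ p ∈ PN N, (if (d : ℤ) ∣ (p : ℤ) + h then (1 : ℝ) else 0) -
      π / (Nat.totient d : ℝ)| = E d := by
    intro d hd hc
    rw [Finset.sum_boole, card_dvd N h d hd hc, hE, hπ]
    congr 1
    ring
  -- sums of the errors
  have hPT : ∑ s ∈ P, E s ≤ T := by
    apply Finset.sum_le_sum_of_subset_of_nonneg
    · intro s hs
      rw [Finset.mem_Icc]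
      refine ⟨(hP s hs).one_lt.le, ?_⟩
      exact (Nat.le_mul_self s).trans (hPQ s hs s hs)
    · intro d _ _; exact hE0 d
  -- off-diagonal
  set O := P.offDiag with hO
  have hoff : ∑ z ∈ O, E (z.1 * z.2) ≤ 2 * T := by
    have h1 : ∀ d ∈ O.image (fun z => z.1 * z.2), ((O.filter fun z => z.1 * z.2 = d).card : ℝ) ≤ 2 := by
      intro d hd
      rw [Finset.mem_image] at hd
      obtain ⟨⟨u, v⟩, huv, rfl⟩ := hd
      rw [hO, Finset.mem_offDiag] at huv
      have h2 : (O.filter fun z => z.1 * z.2 = u * v) ⊆ {(u, v), (v, u)} := by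
        rintro ⟨a, b⟩ hab
        rw [Finset.mem_filter, hO, Finset.mem_offDiag] at hab
        rw [Finset.mem_insert, Finset.mem_singleton]
        obtain ⟨⟨ha, hb, hne⟩, hprod⟩ := hab
        simp only at ha hb hne hprod huv
        have hau : a = u ∨ a = v := by
          have h3 : a ∣ u * v := hprod ▸ Dvd.intro _ rfl
          rcases (hP a ha).dvd_mul.1 h3 with h4 | h4
          · exact Or.inl ((Nat.prime_dvd_prime_iff_eq (hP a ha) (hP u huv.1)).1 h4)
          · exact Or.inr ((Nat.prime_dvd_prime_iff_eq (hP a ha) (hP v huv.2.1)).1 h4)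
        rcases hau with rfl | rfl
        · left
          have := Nat.eq_of_mul_eq_mul_left (hP a ha).pos hprod
          rw [this]
        · right
          rw [mul_comm u] at hprod
          have := Nat.eq_of_mul_eq_mul_left (hP a ha).pos hprod
          rw [this]
      exact_mod_cast (Finset.card_le_card h2).trans Finset.card_le_two
    calc ∑ z ∈ O, E (z.1 * z.2) = ∑ d ∈ O.image (fun z => z.1 * z.2),
          ∑ z ∈ O.filter (fun z => z.1 * z.2 = d), E (z.1 * z.2) := by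
          rw [Finset.sum_fiberwise_of_maps_to]
          intro z hz
          exact Finset.mem_image_of_mem _ hz
      _ ≤ ∑ d ∈ O.image (fun z => z.1 * z.2), 2 * E d := by
          refine Finset.sum_le_sum fun d hd => ?_
          rw [Finset.sum_congr rfl (g := fun _ => E d) (fun z hz => by rw [(Finset.mem_filter.1 hz).2]),
            Finset.sum_const, nsmul_eq_mul]
          exact mul_le_mul_of_nonneg_right (h1 d hd) (hE0 d)
      _ = 2 * ∑ d ∈ O.image (fun z => z.1 * z.2), E d := by rw [Finset.mul_sum]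
      _ ≤ 2 * T := by
          refine mul_le_mul_of_nonneg_left ?_ (by norm_num)
          apply Finset.sum_le_sum_of_subset_of_nonneg
          · intro d hd
            rw [Finset.mem_image] at hd
            obtain ⟨⟨u, v⟩, huv, rfl⟩ := hd
            rw [hO, Finset.mem_offDiag] at huv
            rw [Finset.mem_Icc]
            exact ⟨Nat.mul_pos (hP u huv.1).pos (hP v huv.2.1).pos, hPQ u huv.1 v huv.2.1⟩
          · intro d _ _; exact hE0 d
  -- first moment
  have hm1 : π * S - T ≤ ∑ p ∈ PN N, om P h p := by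
    unfold om
    rw [Finset.sum_comm]
    have h1 : ∀ s ∈ P, π * (1 / ((s : ℝ) - 1)) - E s ≤
        ∑ p ∈ PN N, (if (s : ℤ) ∣ (p : ℤ) + h then (1 : ℝ) else 0) := by
      intro s hs
      have h2 := hind s (hP s hs).pos (hPh s hs)
      have h3 : (Nat.totient s : ℝ) = (s : ℝ) - 1 := by
        rw [Nat.totient_prime (hP s hs), Nat.cast_sub (hP s hs).one_lt.le]
        simp
      rw [h3] at h2
      have h4 := (abs_le.1 h2.le).1
      have h5 : π * (1 / ((s : ℝ) - 1)) = π / ((s : ℝ) - 1) := by ring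
      linarith
    calc π * S - T ≤ π * S - ∑ s ∈ P, E s := by linarith
      _ = ∑ s ∈ P, (π * (1 / ((s : ℝ) - 1)) - E s) := by
          rw [Finset.sum_sub_distrib, ← Finset.mul_sum]
      _ ≤ _ := Finset.sum_le_sum h1
  -- second moment
  have hm2 : ∑ p ∈ PN N, om P h p ^ 2 ≤ π * S + π * S ^ 2 + 3 * T := by
    have hexp : ∀ p, om P h p ^ 2 = ∑ z ∈ P ×ˢ P,
        (if ((z.1 : ℤ) ∣ (p : ℤ) + h ∧ (z.2 : ℤ) ∣ (p : ℤ) + h) then (1 : ℝ) else 0) := by
      intro p
      unfold om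
      rw [sq, Finset.sum_mul_sum, Finset.sum_product]
      refine Finset.sum_congr rfl fun s _ => Finset.sum_congr rfl fun s' _ => ?_
      by_cases a : (s : ℤ) ∣ (p : ℤ) + h <;> by_cases b : (s' : ℤ) ∣ (p : ℤ) + h <;> simp [a, b]
    simp_rw [hexp]
    rw [Finset.sum_comm, ← Finset.diag_union_offDiag, Finset.sum_union (Finset.disjoint_diag_offDiag _),
      ← hO]
    have hd : ∑ z ∈ P.diag, ∑ p ∈ PN N,
        (if ((z.1 : ℤ) ∣ (p : ℤ) + h ∧ (z.2 : ℤ) ∣ (p : ℤ) + h) then (1 : ℝ) else 0) ≤ π * S + T := by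
      rw [Finset.sum_diag]
      simp only [and_self]
      have h1 : ∀ s ∈ P, ∑ p ∈ PN N, (if (s : ℤ) ∣ (p : ℤ) + h then (1 : ℝ) else 0) ≤
          π * (1 / ((s : ℝ) - 1)) + E s := by
        intro s hs
        have h2 := hind s (hP s hs).pos (hPh s hs)
        have h3 : (Nat.totient s : ℝ) = (s : ℝ) - 1 := by
          rw [Nat.totient_prime (hP s hs), Nat.cast_sub (hP s hs).one_lt.le]
          simp
        rw [h3] at h2
        have h4 := (abs_le.1 h2.le).2
        have h5 : π * (1 / ((s : ℝ) - 1)) = π / ((s : ℝ) - 1) := by ring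
        linarith
      calc _ ≤ ∑ s ∈ P, (π * (1 / ((s : ℝ) - 1)) + E s) := Finset.sum_le_sum h1
        _ = π * S + ∑ s ∈ P, E s := by rw [Finset.sum_add_distrib, ← Finset.mul_sum]
        _ ≤ π * S + T := by linarith
    have ho : ∑ z ∈ O, ∑ p ∈ PN N,
        (if ((z.1 : ℤ) ∣ (p : ℤ) + h ∧ (z.2 : ℤ) ∣ (p : ℤ) + h) then (1 : ℝ) else 0) ≤
        π * S ^ 2 + 2 * T := by
      have h1 : ∀ z ∈ O, ∑ p ∈ PN N,
          (if ((z.1 : ℤ) ∣ (p : ℤ) + h ∧ (z.2 : ℤ) ∣ (p : ℤ) + h) then (1 : ℝ) else 0) ≤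
          π * ((1 / ((z.1 : ℝ) - 1)) * (1 / ((z.2 : ℝ) - 1))) + E (z.1 * z.2) := by
        rintro ⟨u, v⟩ huv
        rw [hO, Finset.mem_offDiag] at huv
        obtain ⟨hu, hv, hne⟩ := huv
        simp only at hu hv hne ⊢
        have hcop : Nat.Coprime u v := (Nat.coprime_primes (hP u hu) (hP v hv)).2 hne
        have h2 : ∀ p : ℕ, ((u : ℤ) ∣ (p : ℤ) + h ∧ (v : ℤ) ∣ (p : ℤ) + h) ↔
            (((u * v : ℕ) : ℤ) ∣ (p : ℤ) + h) := by
          intro p
          push_cast
          constructor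
          · rintro ⟨h3, h4⟩
            exact IsCoprime.mul_dvd ((Nat.isCoprime_iff_coprime).2 hcop) h3 h4
          · intro h3
            exact ⟨(Dvd.intro _ rfl).trans h3, (Dvd.intro_left _ rfl).trans h3⟩
        simp only [h2]
        have h3 := hind (u * v) (Nat.mul_pos (hP u hu).pos (hP v hv).pos) (by
          push_cast
          exact IsCoprime.mul_right (hPh u hu) (hPh v hv))
        have h4 : (Nat.totient (u * v) : ℝ) = ((u : ℝ) - 1) * ((v : ℝ) - 1) := by
          rw [Nat.totient_mul hcop, Nat.totient_prime (hP u hu), Nat.totient_prime (hP v hv)]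
          push_cast
          rw [Nat.cast_sub (hP u hu).one_lt.le, Nat.cast_sub (hP v hv).one_lt.le]
          simp
        rw [h4] at h3
        have h5 := (abs_le.1 h3.le).2
        have h6 : π * ((1 / ((u : ℝ) - 1)) * (1 / ((v : ℝ) - 1))) =
            π / (((u : ℝ) - 1) * ((v : ℝ) - 1)) := by
          rw [one_div, one_div, ← mul_inv]
          rfl
        linarith
      have h7 : ∑ z ∈ O, π * ((1 / ((z.1 : ℝ) - 1)) * (1 / ((z.2 : ℝ) - 1))) ≤ π * S ^ 2 := by
        rw [← Finset.mul_sum]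
        refine mul_le_mul_of_nonneg_left ?_ hπ0
        have h8 : S ^ 2 = ∑ z ∈ P ×ˢ P, (1 / ((z.1 : ℝ) - 1)) * (1 / ((z.2 : ℝ) - 1)) := by
          rw [sq, hS, Finset.sum_mul_sum, Finset.sum_product]
        rw [h8]
        apply Finset.sum_le_sum_of_subset_of_nonneg
        · rw [← Finset.diag_union_offDiag]; exact Finset.subset_union_right
        · rintro ⟨u, v⟩ huv _
          rw [Finset.mem_product] at huv
          exact (mul_pos (div_pos one_pos (hs1 u huv.1)) (div_pos one_pos (hs1 v huv.2))).le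
      calc _ ≤ ∑ z ∈ O, (π * ((1 / ((z.1 : ℝ) - 1)) * (1 / ((z.2 : ℝ) - 1))) + E (z.1 * z.2)) :=
            Finset.sum_le_sum h1
        _ = ∑ z ∈ O, π * ((1 / ((z.1 : ℝ) - 1)) * (1 / ((z.2 : ℝ) - 1))) + ∑ z ∈ O, E (z.1 * z.2) := by
            rw [Finset.sum_add_distrib]
        _ ≤ π * S ^ 2 + 2 * T := add_le_add h7 hoff
    linarith
  have h3 : ∑ p ∈ PN N, (om P h p - S) ^ 2 =
      ∑ p ∈ PN N, om P h p ^ 2 - 2 * S * ∑ p ∈ PN N, om P h p + π * S ^ 2 := by
    have h4 : ∀ p, (om P h p - S) ^ 2 = om P h p ^ 2 - 2 * S * om P h p + S ^ 2 := fun p => by ring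
    simp only [h4]
    rw [Finset.sum_add_distrib, Finset.sum_sub_distrib, ← Finset.mul_sum, Finset.sum_const,
      nsmul_eq_mul, hcard]
  rw [h3]
  have h5 : 2 * S * (π * S - T) ≤ 2 * S * ∑ p ∈ PN N, om P h p :=
    mul_le_mul_of_nonneg_left hm1 (by linarith)
  nlinarith

end Pool.Agent.K3h28.SP
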