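import Mathlib
import Pool.Agent.K3h28.SP.ShiftTuran
import Pool.Agent.K3h28.SP.Few

/-!
# Almost all shifted primes have many large prime factors
-/

set_option autoImplicit false

namespace Pool.Agent.K3h28.SP

open Finset Filter Topology
open Pool.Agent.H442R2.KF (piAP piN Er)

/-- the primes in `(a, b]` -/
def PP (a b : ℕ) : Finset ℕ := (Ioc a b).filter Nat.Prime

/-- the lower end of the range of the primes -/
noncomputable def lo (A N : ℕ) : ℕ := ⌈Real.log N ^ A⌉₊

/-- the upper end of the range of the primes -/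
noncomputable def hi (N : ℕ) : ℕ := ⌊(N : ℝ) ^ (1 / 5 : ℝ)⌋₊

/-- the sum of `1 / (s - 1)` -/
noncomputable def SS (A N : ℕ) : ℝ := ∑ s ∈ PP (lo A N) (hi N), 1 / ((s : ℝ) - 1)

lemma tendsto_ll : Tendsto (fun N : ℕ => Real.log (Real.log N)) atTop atTop :=
  Real.tendsto_log_atTop.comp (Real.tendsto_log_atTop.comp tendsto_natCast_atTop_atTop)

lemma tendsto_l : Tendsto (fun N : ℕ => Real.log N) atTop atTop :=
  Real.tendsto_log_atTop.comp tendsto_natCast_atTop_atTop

lemma log_small (c : ℝ) (hc : 0 < c) : ∀ᶠ t : ℝ in atTop, Real.log t ≤ c * t := by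
  have h := Real.isLittleO_log_id_atTop.bound hc
  filter_upwards [h, eventually_ge_atTop (1 : ℝ)] with t ht ht1
  rw [Real.norm_eq_abs, Real.norm_eq_abs, id, abs_of_nonneg (Real.log_nonneg ht1),
    abs_of_nonneg (by linarith)] at ht
  exact ht

lemma SS_bounds (A : ℕ) (hA : 1 ≤ A) : ∀ᶠ N : ℕ in atTop,
    Real.log (Real.log N) / 2 ≤ SS A N ∧ SS A N ≤ 4 * Real.log (Real.log N) := by
  obtain ⟨C, hC0, hC⟩ := Pool.Agent.Helper923.HMertens.mertens_ratio
  filter_upwards [tendsto_ll.eventually_ge_atTop (100 + 8 * (Real.log (10 * (A + 1)) + C)),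
    tendsto_ll.eventually (log_small (1 / 8) (by norm_num)),
    tendsto_l.eventually (log_small (1 / (10 * (A + 1))) (by positivity)),
    eventually_ge_atTop 3] with N h1 h2 h3 hN3
  set L := Real.log N with hL
  set l := Real.log L with hl
  have hlA : 0 ≤ Real.log (10 * ((A : ℝ) + 1)) := by
    apply Real.log_nonneg
    have : (0 : ℝ) ≤ A := Nat.cast_nonneg A
    linarith
  have hl100 : 100 ≤ l := by linarith
  have hN0 : (0 : ℝ) < N := by positivity
  have hL1 : 1 < L := by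
    have h5 : Real.exp 1 < 3 := by have := Real.exp_one_lt_d9; linarith
    rw [hL, Real.lt_log_iff_exp_lt hN0]
    have : (3 : ℝ) ≤ N := by exact_mod_cast hN3
    linarith
  have hL0 : 0 < L := by linarith
  have hLl : L = Real.exp l := (Real.exp_log hL0).symm
  have hNL : (N : ℝ) = Real.exp L := (Real.exp_log hN0).symm
  have hlog2 : Real.log 2 < 0.6931471808 := Real.log_two_lt_d9
  have hA1 : (1 : ℝ) ≤ A := by exact_mod_cast hA
  -- lower end
  have hLA : Real.log (L ^ A) = A * l := by rw [Real.log_pow]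
  have hLA1 : 1 ≤ L ^ A := one_le_pow₀ hL1.le
  have ha1 : L ^ A ≤ lo A N := Nat.le_ceil _
  have ha2 : (lo A N : ℝ) ≤ 2 * L ^ A := by
    have : (lo A N : ℝ) < L ^ A + 1 := Nat.ceil_lt_add_one (by positivity)
    linarith
  have ha0 : (0 : ℝ) < lo A N := by linarith
  have hloga1 : A * l ≤ Real.log (lo A N) := by
    rw [← hLA]
    exact Real.log_le_log (by positivity) ha1
  have hloga2 : Real.log (lo A N) ≤ (A + 1) * l := by
    have : Real.log (lo A N) ≤ Real.log (2 * L ^ A) := Real.log_le_log ha0 ha2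
    rw [Real.log_mul (by norm_num) (by positivity), hLA] at this
    linarith
  have hloga100 : 100 ≤ Real.log (lo A N) := by nlinarith
  -- upper end
  have hNp : (N : ℝ) ^ (1 / 5 : ℝ) = Real.exp (L / 5) := by
    rw [Real.rpow_def_of_pos hN0]
    ring_nf
    rw [hL]
  have hL200 : 200 ≤ L := by
    have := Real.add_one_le_exp l
    have h6 : Real.log L ≤ 1 / (10 * (A + 1)) * L := h3
    have h7 : 1 / (10 * ((A : ℝ) + 1)) ≤ 1 / 20 := by
      apply one_div_le_one_div_of_le (by norm_num); linarith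
    have h8 : 1 / (10 * ((A : ℝ) + 1)) * L ≤ 1 / 20 * L := mul_le_mul_of_nonneg_right h7 hL0.le
    have h9 : 100 ≤ Real.log L := hl100
    linarith
  have hb1 : Real.exp (L / 10) ≤ hi N := by
    have h6 : (N : ℝ) ^ (1 / 5 : ℝ) < hi N + 1 := Nat.lt_floor_add_one _
    rw [hNp] at h6
    have h7 : Real.exp (L / 5) = Real.exp (L / 10) * Real.exp (L / 10) := by
      rw [← Real.exp_add]; ring_nf
    have h8 : 2 ≤ Real.exp (L / 10) := by
      have := Real.add_one_le_exp (L / 10)
      linarith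
    nlinarith
  have hb0 : (0 : ℝ) < hi N := lt_of_lt_of_le (Real.exp_pos _) hb1
  have hb2 : (hi N : ℝ) ≤ Real.exp (L / 5) := by
    rw [← hNp]
    exact Nat.floor_le (by positivity)
  have hlogb1 : L / 10 ≤ Real.log (hi N) := by
    rw [Real.le_log_iff_exp_le hb0]; exact hb1
  have hlogb2 : Real.log (hi N) ≤ L / 5 := by
    rw [Real.log_le_iff_le_exp hb0]; exact hb2
  have hAl : (A + 1) * l ≤ L / 10 := by
    have h6 : Real.log L ≤ 1 / (10 * (A + 1)) * L := h3
    have h7 : ((A : ℝ) + 1) * (1 / (10 * (A + 1)) * L) = L / 10 := by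
      field_simp
    rw [← h7]
    exact mul_le_mul_of_nonneg_left h6 (by linarith)
  have hab : lo A N ≤ hi N := by
    have h6 : Real.log (lo A N) ≤ Real.log (hi N) := hloga2.trans (hAl.trans hlogb1)
    have h7 := (Real.log_le_log_iff ha0 hb0).1 h6
    exact_mod_cast h7
  have ha2' : 2 ≤ lo A N := by
    by_contra hcon
    push Not at hcon
    have h6 : (lo A N : ℝ) ≤ 2 := by exact_mod_cast hcon.le
    have h7 : Real.log (lo A N) ≤ Real.log 2 := Real.log_le_log ha0 h6
    linarith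
  have hM := hC (lo A N) (hi N) ha2' hab
  have hMC : C / Real.log (lo A N) ≤ C := by
    apply div_le_self hC0; linarith
  rw [abs_le] at hM
  obtain ⟨hM1, hM2⟩ := hM
  have hloga0 : 0 < Real.log (lo A N) := by linarith
  have hlogb0 : 0 < Real.log (hi N) := by linarith
  have hr1 : l - Real.log (10 * (A + 1)) - Real.log l ≤ Real.log (Real.log (hi N) / Real.log (lo A N)) := by
    have h6 : (L / 10) / ((A + 1) * l) ≤ Real.log (hi N) / Real.log (lo A N) := by
      apply div_le_div₀ hlogb0.le hlogb1 hloga0 hloga2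
    have h7 := Real.log_le_log (by positivity) h6
    refine le_trans (le_of_eq ?_) h7
    have h8 : (10 : ℝ) * (((A : ℝ) + 1) * l) = (10 * ((A : ℝ) + 1)) * l := by ring
    have hl0 : l ≠ 0 := by linarith
    rw [div_div, h8, Real.log_div hL0.ne' (by positivity),
      Real.log_mul (by positivity) hl0]
    ring
  have hr2 : Real.log (Real.log (hi N) / Real.log (lo A N)) ≤ l := by
    apply Real.log_le_log (by positivity)
    rw [div_le_iff₀ hloga0]
    nlinarith
  have hlo : ∑ p ∈ (Finset.Ioc (lo A N) (hi N)).filter Nat.Prime, (1 : ℝ) / p ≤ SS A N := by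
    unfold SS PP
    apply Finset.sum_le_sum
    intro s hs
    have : 1 < s := (Finset.mem_filter.1 hs).2.one_lt
    have h8 : (1 : ℝ) < s := by exact_mod_cast this
    apply one_div_le_one_div_of_le (by linarith); linarith
  have hhi : SS A N ≤ 2 * ∑ p ∈ (Finset.Ioc (lo A N) (hi N)).filter Nat.Prime, (1 : ℝ) / p := by
    unfold SS PP
    rw [Finset.mul_sum]
    apply Finset.sum_le_sum
    intro s hs
    have : 2 ≤ s := (Finset.mem_filter.1 hs).2.two_le
    have h8 : (2 : ℝ) ≤ s := by exact_mod_cast this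
    rw [show 2 * (1 / (s : ℝ)) = 2 / s by ring, div_le_div_iff₀ (by linarith) (by linarith)]
    linarith
  have h2' : Real.log l ≤ 1 / 8 * l := h2
  constructor
  · linarith
  · linarith

lemma piN_eq (N : ℕ) : (piN N : ℝ) = (Nat.primeCounting N : ℝ) := by
  rw [← Nat.primesLE_card_eq_primeCounting]
  unfold piN
  congr 2
  ext p
  rw [Finset.mem_filter, Finset.mem_Icc, Nat.mem_primesLE]
  constructor
  · rintro ⟨⟨_, h⟩, hp⟩; exact ⟨h, hp⟩
  · rintro ⟨h, hp⟩; exact ⟨⟨hp.one_lt.le, h⟩, hp⟩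

lemma piN_ge : ∀ᶠ N : ℕ in atTop, (N : ℝ) ≤ 2 * piN N * Real.log N := by
  filter_upwards [tendsto_natCast_atTop_atTop.eventually (log_small (1 / 100) (by norm_num)),
    eventually_ge_atTop 100] with N h1 hN
  have hN' : (100 : ℝ) ≤ N := by exact_mod_cast hN
  have h2 := Chebyshev.psi_ge N
  have h3 := Chebyshev.psi_le_primeCounting_mul_log N
  rw [← piN_eq] at h3
  have h4 : Real.log ((N : ℝ) + 1) ≤ Real.log N + 1 := by
    have h5 : (N : ℝ) + 1 ≤ N * Real.exp 1 := by
      have : (2 : ℝ) ≤ Real.exp 1 := by have := Real.add_one_le_exp (1 : ℝ); linarith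
      nlinarith
    have h6 := Real.log_le_log (by positivity) h5
    rw [Real.log_mul (by positivity) (by positivity), Real.log_exp] at h6
    exact h6
  have hlog2 : 0.6931471803 < Real.log 2 := Real.log_two_gt_d9
  have h1' : Real.log (N : ℝ) ≤ 1 / 100 * N := h1
  nlinarith

theorem few_shift (h : ℤ) (h0 : h ≠ 0) (r A : ℕ) (hA : 1 ≤ A) : ∃ C : ℝ, 0 < C ∧
    ∀ᶠ N : ℕ in atTop, (((PN N).filter fun p => om (PP (lo A N) (hi N)) h p < r).card : ℝ) ≤
      C * (piN N / Real.log (Real.log N)) := by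
  obtain ⟨C₁, hC₁0, hC₁⟩ := Pool.Agent.H442R2.KF.bv (2 / 5) (by norm_num) 2
  refine ⟨16 * (4 + 18 * C₁), by positivity, ?_⟩
  filter_upwards [tendsto_ll.eventually_ge_atTop (100 + 4 * r), SS_bounds A hA, piN_ge,
    tendsto_l.eventually (log_small 1 (by norm_num)),
    tendsto_l.eventually_ge_atTop (|(h : ℝ)| + 1), eventually_ge_atTop 3] with N h1 h2 h3 h4 h5 hN3
  obtain ⟨hS1, hS2⟩ := h2
  set L := Real.log N with hL
  set l := Real.log L with hl
  have hr0 : (0 : ℝ) ≤ r := Nat.cast_nonneg r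
  have hl100 : 100 ≤ l := by linarith
  have hN0 : (0 : ℝ) < N := by positivity
  have hL1 : 1 ≤ L := by have := abs_nonneg (h : ℝ); linarith
  have hL0 : 0 < L := by linarith
  have hπ0 : (0 : ℝ) ≤ piN N := by positivity
  have hlL : l ≤ L := by
    have h4' : Real.log L ≤ 1 * L := h4
    linarith
  set P := PP (lo A N) (hi N) with hP
  have hPprime : ∀ s ∈ P, s.Prime := fun s hs => (Finset.mem_filter.1 hs).2
  have hPh : ∀ s ∈ P, IsCoprime h (s : ℤ) := by
    intro s hs
    have hs1 : lo A N < s := (Finset.mem_Ioc.1 (Finset.mem_filter.1 hs).1).1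
    have h6 : |(h : ℝ)| < s := by
      have h7 : L ≤ L ^ A := by
        calc L = L ^ 1 := (pow_one L).symm
          _ ≤ L ^ A := pow_le_pow_right₀ hL1 hA
      have h8 : L ^ A ≤ lo A N := Nat.le_ceil _
      have h9 : (lo A N : ℝ) < s := by exact_mod_cast hs1
      linarith
    have h7 : |h| < s := by
      have : ((|h| : ℤ) : ℝ) < s := by rw [Int.cast_abs]; exact h6
      exact_mod_cast this
    have hsp : Prime (s : ℤ) := Nat.prime_iff_prime_int.1 (hPprime s hs)
    refine (isCoprime_comm.1 ((Prime.coprime_iff_not_dvd hsp).2 ?_))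
    intro hdvd
    have := Int.le_of_dvd (abs_pos.2 h0) ((dvd_abs _ _).2 hdvd)
    omega
  have hPQ : ∀ s ∈ P, ∀ s' ∈ P, s * s' ≤ ⌊(N : ℝ) ^ (2 / 5 : ℝ)⌋₊ := by
    intro s hs s' hs'
    have hs1 : s ≤ hi N := (Finset.mem_Ioc.1 (Finset.mem_filter.1 hs).1).2
    have hs1' : s' ≤ hi N := (Finset.mem_Ioc.1 (Finset.mem_filter.1 hs').1).2
    have hhi : (hi N : ℝ) ≤ (N : ℝ) ^ (1 / 5 : ℝ) := Nat.floor_le (by positivity)
    apply Nat.le_floor
    push_cast
    have h6 : (s : ℝ) ≤ (N : ℝ) ^ (1 / 5 : ℝ) := le_trans (by exact_mod_cast hs1) hhi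
    have h7 : (s' : ℝ) ≤ (N : ℝ) ^ (1 / 5 : ℝ) := le_trans (by exact_mod_cast hs1') hhi
    calc (s : ℝ) * s' ≤ (N : ℝ) ^ (1 / 5 : ℝ) * (N : ℝ) ^ (1 / 5 : ℝ) := by gcongr
      _ = (N : ℝ) ^ (2 / 5 : ℝ) := by rw [← Real.rpow_add hN0]; norm_num
  have hT := turan_shift N h P hPprime hPh _ hPQ
  have hE := hC₁ N hN3 (res h) (fun d _ => res_coprime h d)
  set T := ∑ d ∈ Icc 1 ⌊(N : ℝ) ^ (2 / 5 : ℝ)⌋₊, |Er N d (res h d)| with hTdef
  have hT0 : 0 ≤ T := Finset.sum_nonneg fun _ _ => abs_nonneg _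
  change ∑ p ∈ PN N, (om P h p - SS A N) ^ 2 ≤ (piN N : ℝ) * SS A N + (2 * SS A N + 3) * T at hT
  set S := SS A N with hS
  have hT2 : T ≤ 2 * C₁ * piN N / L := by
    refine hE.trans ?_
    rw [mul_div_assoc', div_le_div_iff₀ (by positivity) hL0]
    calc C₁ * N * L ≤ C₁ * (2 * piN N * L) * L := by gcongr
      _ = 2 * C₁ * piN N * L ^ 2 := by ring
  have hT3 : (2 * S + 3) * T ≤ 18 * C₁ * piN N := by
    have h6 : 2 * S + 3 ≤ 9 * L := by nlinarith
    calc (2 * S + 3) * T ≤ 9 * L * (2 * C₁ * piN N / L) := by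
          apply mul_le_mul h6 hT2 hT0 (by linarith)
      _ = 18 * C₁ * piN N := by field_simp; ring
  set F := (PN N).filter fun p => om P h p < r with hF
  have hF1 : (F.card : ℝ) * (l / 4) ^ 2 ≤ ∑ p ∈ PN N, (om P h p - S) ^ 2 := by
    calc (F.card : ℝ) * (l / 4) ^ 2 = ∑ p ∈ F, (l / 4) ^ 2 := by
          rw [Finset.sum_const, nsmul_eq_mul]
      _ ≤ ∑ p ∈ F, (om P h p - S) ^ 2 := by
          apply Finset.sum_le_sum
          intro p hp
          have h6 : om P h p < r := (Finset.mem_filter.1 hp).2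
          have h7 : l / 4 ≤ S - om P h p := by linarith
          nlinarith
      _ ≤ _ := Finset.sum_le_sum_of_subset_of_nonneg (Finset.filter_subset _ _)
          (fun _ _ _ => sq_nonneg _)
  have hF2 : (F.card : ℝ) * (l / 4) ^ 2 ≤ (4 + 18 * C₁) * piN N * l := by
    refine hF1.trans (hT.trans ?_)
    have h6 : (piN N : ℝ) * S ≤ piN N * (4 * l) := mul_le_mul_of_nonneg_left hS2 hπ0
    have h7 : 18 * C₁ * piN N ≤ 18 * C₁ * piN N * l := by
      have : 0 ≤ 18 * C₁ * (piN N : ℝ) := by positivity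
      nlinarith
    nlinarith
  have h8 : 0 < l := by linarith
  rw [mul_div_assoc', le_div_iff₀ h8]
  have h9 : (F.card : ℝ) * l * l ≤ (16 * (4 + 18 * C₁) * piN N) * l := by nlinarith
  exact le_of_mul_le_mul_right h9 h8

end Pool.Agent.K3h28.SP
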