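import Mathlib
import Pool.Agent.K3h28.SP.ShiftFew
import Pool.Agent.Y918.SC.Tup

/-!
# Schanuel's conjecture up to bounded degree for functions of shifted primes
-/

set_option autoImplicit false

namespace Pool.Agent.K3h28.SP

open Finset Filter Topology Module
open Pool.Agent.H442R2.KF (piN)
open Pool.Agent.H301R2.SSE (QB mem_QB)
open Pool.Agent.W245 (IndepOver IndepT famExt famExt_finite)
open Pool.Agent.Y918.SC (Good mT GoodT one_var Adm)

/-- the shifted prime -/
def sh (h : ℤ) (p : ℕ) : ℕ := ((p : ℤ) + h).toNat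

lemma sh_inj (h : ℤ) {p q : ℕ} (hp : 0 < (p : ℤ) + h) (hq : 0 < (q : ℤ) + h)
    (he : sh h p = sh h q) : p = q := by
  unfold sh at he
  omega

lemma card_PN (N : ℕ) : (PN N).card = piN N := rfl

/-- the exponent of the logarithm -/
noncomputable def AA (r : ℕ) : ℕ := ⌈((r : ℝ) + 3) / ex r⌉₊ + 1

lemma power_bound (r : ℕ) (h : ℤ) : ∃ C : ℝ, 0 < C ∧ ∀ᶠ N : ℕ in atTop,
    2 ≤ Real.log N ^ AA r ∧
    2 * ((Nat.log 2 (N + h.natAbs) : ℝ) + 1) ^ r * ((N + h.natAbs : ℕ) : ℝ) *
      (Real.log N ^ AA r / 2) ^ (-(ex r)) ≤ C * (piN N / Real.log (Real.log N)) := by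
  refine ⟨2 * 4 ^ r * 2 * 2 ^ (ex r) * 2, by positivity, ?_⟩
  filter_upwards [tendsto_ll.eventually_ge_atTop 100, piN_ge,
    tendsto_l.eventually (log_small 1 (by norm_num)),
    eventually_ge_atTop (max 3 h.natAbs)] with N h1 h3 h4 hN
  set L := Real.log N with hL
  set l := Real.log L with hl
  have hN3 : 3 ≤ N := (le_max_left _ _).trans hN
  have hNh : h.natAbs ≤ N := (le_max_right _ _).trans hN
  have hN0 : (0 : ℝ) < N := by positivity
  have hL0' : 0 < L := Real.log_pos (by exact_mod_cast (by omega : 1 < N))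
  have hlL : l ≤ L := by
    have h4' : Real.log L ≤ 1 * L := h4
    linarith
  have hl0 : 0 < l := by linarith
  have hL100 : 100 ≤ L := by linarith
  have hL1 : 1 ≤ L := by linarith
  have hA1 : 1 ≤ AA r := by unfold AA; omega
  have hLA : L ≤ L ^ AA r := by
    calc L = L ^ 1 := (pow_one L).symm
      _ ≤ L ^ AA r := pow_le_pow_right₀ hL1 hA1
  refine ⟨by linarith, ?_⟩
  have hex := ex_pos r
  -- the number of dyadic scales
  have hX : ((N + h.natAbs : ℕ) : ℝ) ≤ 2 * N := by
    have : N + h.natAbs ≤ 2 * N := by omega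
    exact_mod_cast this
  have hlog : (Nat.log 2 (N + h.natAbs) : ℝ) + 1 ≤ 4 * L := by
    have h5 : (Nat.log 2 (N + h.natAbs) : ℝ) ≤ Real.logb 2 ((N + h.natAbs : ℕ) : ℝ) := by
      have := Real.natLog_le_logb (N + h.natAbs) 2
      exact_mod_cast this
    have h6 : Real.logb 2 ((N + h.natAbs : ℕ) : ℝ) ≤ Real.logb 2 (2 * N) := by
      apply Real.logb_le_logb_of_le (by norm_num) _ hX
      have : 0 < N + h.natAbs := by omega
      exact_mod_cast this
    have h7 : Real.logb 2 (2 * N) = 1 + L / Real.log 2 := by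
      rw [Real.logb, Real.log_mul (by norm_num) hN0.ne', add_div,
        div_self (Real.log_pos (by norm_num)).ne']
    have hlog2 : 0.6931471803 < Real.log 2 := Real.log_two_gt_d9
    have h8 : L / Real.log 2 ≤ 2 * L := by
      rw [div_le_iff₀ (by linarith)]
      nlinarith
    linarith
  have hpow : (L ^ AA r / 2) ^ (-(ex r)) ≤ 2 ^ (ex r) * (L ^ (r + 2))⁻¹ := by
    rw [div_eq_mul_inv, Real.mul_rpow (by positivity) (by norm_num),
      Real.inv_rpow (by norm_num), ← Real.rpow_neg (by norm_num), neg_neg, mul_comm]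
    apply mul_le_mul_of_nonneg_left _ (by positivity)
    rw [← Real.rpow_natCast, ← Real.rpow_mul hL0'.le, ← Real.rpow_natCast L (r + 2),
      ← Real.rpow_neg hL0'.le]
    apply Real.rpow_le_rpow_of_exponent_le hL1
    have h9 : ((r : ℝ) + 3) / ex r ≤ AA r := by
      unfold AA
      push_cast
      have := Nat.le_ceil (((r : ℝ) + 3) / ex r)
      linarith
    rw [div_le_iff₀ hex] at h9
    push_cast
    linarith
  have h10 : 2 * ((Nat.log 2 (N + h.natAbs) : ℝ) + 1) ^ r * ((N + h.natAbs : ℕ) : ℝ) *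
      (L ^ AA r / 2) ^ (-(ex r)) ≤ 2 * (4 * L) ^ r * (2 * N) * (2 ^ (ex r) * (L ^ (r + 2))⁻¹) := by
    gcongr
  refine h10.trans ?_
  have h11 : 2 * (4 * L) ^ r * (2 * N) * (2 ^ (ex r) * (L ^ (r + 2))⁻¹) =
      (2 * 4 ^ r * 2 * 2 ^ (ex r)) * (N / L ^ 2) := by
    rw [mul_pow, pow_add]
    field_simp
  rw [h11, mul_assoc (2 * 4 ^ r * 2 * 2 ^ (ex r) : ℝ) 2]
  apply mul_le_mul_of_nonneg_left _ (by positivity)
  rw [mul_div_assoc', div_le_div_iff₀ (by positivity) hl0]
  calc (N : ℝ) * l ≤ (2 * piN N * L) * L := by gcongr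
    _ = 2 * piN N * L ^ 2 := by ring

/-- **Sets of shifted primes without cubes.** -/
theorem shift_free (h : ℤ) (h0 : h ≠ 0) (r : ℕ) : ∃ C : ℝ, 0 < C ∧ ∀ᶠ N : ℕ in atTop,
    ∀ E : Finset ℕ, E ⊆ PN N → (∀ p ∈ E, 0 < (p : ℤ) + h) →
    (∀ B ⊆ E.image (sh h), ¬ HasCube r B) → (E.card : ℝ) ≤ C * (piN N / Real.log (Real.log N)) := by
  classical
  obtain ⟨C₁, hC₁0, hC₁⟩ := power_bound r h
  obtain ⟨C₂, hC₂0, hC₂⟩ := few_shift h h0 r (AA r) (by unfold AA; omega)
  refine ⟨C₂ + C₁, by positivity, ?_⟩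
  filter_upwards [hC₁, hC₂] with N h1 h2 E hE hEh hfree
  set A := ((PN N).filter (fun p : ℕ => 0 < (p : ℤ) + h)).image (sh h) with hA
  have hEA : E.image (sh h) ⊆ A := by
    apply Finset.image_subset_image
    intro p hp
    exact Finset.mem_filter.2 ⟨hE hp, hEh p hp⟩
  have hAx : A ⊆ Ioc 0 (N + h.natAbs) := by
    intro n hn
    rw [hA, Finset.mem_image] at hn
    obtain ⟨p, hp, rfl⟩ := hn
    rw [Finset.mem_filter, PN, Finset.mem_filter, Finset.mem_Icc] at hp
    rw [Finset.mem_Ioc]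
    unfold sh
    omega
  have h3 := card_free r (N + h.natAbs) (Real.log N ^ AA r) h1.1 A (E.image (sh h)) hAx hEA hfree
  have hcard : (E.image (sh h)).card = E.card := by
    apply Finset.card_image_of_injOn
    intro p hp q hq he
    exact sh_inj h (hEh p hp) (hEh q hq) he
  rw [hcard] at h3
  have hfew : (few r (Real.log N ^ AA r) A : ℝ) ≤
      (((PN N).filter fun p => om (PP (lo (AA r) N) (hi N)) h p < r).card : ℝ) := by
    unfold few
    apply Nat.cast_le.2
    have h4 : (A.filter fun n => (n.primeFactors.filter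
        (fun p : ℕ => Real.log N ^ AA r ≤ (p : ℝ))).card < r) ⊆
        ((PN N).filter fun p => om (PP (lo (AA r) N) (hi N)) h p < r).image (sh h) := by
      intro n hn
      rw [Finset.mem_filter, hA, Finset.mem_image] at hn
      obtain ⟨⟨p, hp, rfl⟩, hn⟩ := hn
      rw [Finset.mem_filter] at hp
      rw [Finset.mem_image]
      refine ⟨p, Finset.mem_filter.2 ⟨hp.1, ?_⟩, rfl⟩
      refine lt_of_le_of_lt ?_ (Nat.cast_lt.2 hn)
      unfold om
      rw [Finset.sum_boole]
      apply Nat.cast_le.2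
      apply Finset.card_le_card
      intro s hs
      rw [Finset.mem_filter, PP, Finset.mem_filter, Finset.mem_Ioc] at hs
      obtain ⟨⟨⟨hs1, hs2⟩, hsp⟩, hdvd⟩ := hs
      have h5 : ((sh h p : ℕ) : ℤ) = (p : ℤ) + h := Int.toNat_of_nonneg hp.2.le
      rw [Finset.mem_filter, Nat.mem_primeFactors]
      refine ⟨⟨hsp, ?_, ?_⟩, ?_⟩
      · rw [← h5] at hdvd
        exact_mod_cast hdvd
      · have := hp.2
        rw [← h5] at this
        omega
      · have h6 : Real.log N ^ AA r ≤ lo (AA r) N := Nat.le_ceil _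
        refine h6.trans ?_
        exact_mod_cast hs1.le
    exact (Finset.card_le_card h4).trans Finset.card_image_le
  unfold bnd at h3
  calc (E.card : ℝ) ≤ _ := h3
    _ ≤ C₂ * (piN N / Real.log (Real.log N)) + C₁ * (piN N / Real.log (Real.log N)) :=
        add_le_add (hfew.trans h2) h1.2
    _ = _ := by ring

/-- **One variable.** -/
theorem shift_one (n D d : ℕ) (h : ℤ) (h0 : h ≠ 0) : ∃ C : ℝ, 0 < C ∧ ∀ᶠ N : ℕ in atTop,
    ∀ f : ℕ → Fin n → ℂ, Adm f →
    ∀ W : Submodule QB ℂ, Module.Finite QB W → finrank QB W ≤ d →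
    ∀ E : Finset ℕ, E ⊆ PN N → (∀ p ∈ E, 0 < (p : ℤ) + h ∧
      ¬ ∃ T : Fin n → Fin n ⊕ Fin n, Function.Injective T ∧
        IndepOver W (mT (D := D) (f (sh h p)) T)) →
      (E.card : ℝ) ≤ C * (piN N / Real.log (Real.log N)) := by
  classical
  obtain ⟨r, hr⟩ := one_var n D d
  obtain ⟨C, hC0, hC⟩ := shift_free h h0 r
  refine ⟨C, hC0, ?_⟩
  filter_upwards [hC] with N hN f hf W hWf hWd E hE hbad
  refine hN E hE (fun p hp => (hbad p hp).1) ?_
  rintro B hB ⟨a, p, q, ha, hp, hq, hinj, hcube⟩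
  obtain ⟨S, T, hT, hS⟩ := hr W hWf hWd (f (a * ∏ i, p i)) (fun i => f (q i) - f (p i))
    (hf.good r p q hp hq hinj)
  obtain ⟨s, hs, hss⟩ := Finset.mem_image.1 (hB (hcube S))
  apply (hbad s hs).2
  rw [hss]
  refine ⟨T, hT, ?_⟩
  have h1 := hf.cube a p q ha (fun i => (hp i).pos) (fun i => (hq i).pos) S
  have h2 : a * ∏ i, vtx p q S i = a * ∏ i, (if i ∈ S then q i else p i) := rfl
  rw [h2, h1]
  exact hS

/-- the exceptional tuples -/
def BadS {n k : ℕ} (D : ℕ) (W : Submodule QB ℂ) (f : Fin k → ℕ → Fin n → ℂ) (h : Fin k → ℤ)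
    (p : Fin k → ℕ) : Prop :=
  (∀ j, 0 < (p j : ℤ) + h j) ∧ ¬ GoodT D W (fun j => f j (sh (h j) (p j)))

open Classical in
/-- **Tuples.** -/
theorem shift_tup (n D k : ℕ) : ∀ (d : ℕ) (h : Fin k → ℤ), (∀ j, h j ≠ 0) →
    ∃ C : ℝ, 0 < C ∧ ∀ᶠ N : ℕ in atTop,
    ∀ f : Fin k → ℕ → Fin n → ℂ, (∀ i, Adm (f i)) →
    ∀ W : Submodule QB ℂ, Module.Finite QB W → finrank QB W ≤ d →
      (((Fintype.piFinset fun _ : Fin k => PN N).filter (BadS D W f h)).card : ℝ) ≤
        C * ((piN N : ℝ) ^ k / Real.log (Real.log N)) := by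
  induction k with
  | zero =>
    intro d h _
    refine ⟨1, one_pos, ?_⟩
    filter_upwards [tendsto_ll.eventually_ge_atTop 1] with N h1 f _ W _ _
    rw [Finset.filter_false_of_mem]
    · simp only [Finset.card_empty, Nat.cast_zero]
      positivity
    · intro a _ ha
      exact ha.2 ⟨fun i => i.elim0, fun i => i.elim0, IndepT.zero _ _⟩
  | succ k ih =>
    intro d h h0
    obtain ⟨C₁, hC₁0, hC₁⟩ := shift_one n D d (h 0) (h0 0)
    obtain ⟨C₂, hC₂0, hC₂⟩ := ih (d * Fintype.card (Fin n → Fin (D + 1))) (fun j => h j.succ)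
      (fun j => h0 j.succ)
    refine ⟨C₁ + C₂, by positivity, ?_⟩
    filter_upwards [hC₁, hC₂, tendsto_ll.eventually_ge_atTop 1] with N h1 h2 h3 f hf W hWf hWd
    have hl0 : 0 < Real.log (Real.log N) := by linarith
    have h4 := count_first k (PN N) (BadS D W f h)
      (C₁ * (piN N / Real.log (Real.log N))) (C₂ * ((piN N : ℝ) ^ k / Real.log (Real.log N)))
      ((PN N).filter (fun p : ℕ => 0 < (p : ℤ) + h 0 ∧
        ¬ ∃ T : Fin n → Fin n ⊕ Fin n, Function.Injective T ∧
          IndepOver W (mT (D := D) (f 0 (sh (h 0) p)) T)))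
      (Finset.filter_subset _ _)
      (h1 (f 0) (hf 0) W hWf hWd _ (Finset.filter_subset _ _)
        (fun p hp => (Finset.mem_filter.1 hp).2))
      (by positivity) (by
        intro a ha haE
        by_cases hpos : 0 < (a : ℤ) + h 0
        · obtain ⟨T₀, hT₀, h₀⟩ : ∃ T : Fin n → Fin n ⊕ Fin n, Function.Injective T ∧
              IndepOver W (mT (D := D) (f 0 (sh (h 0) a)) T) := by
            by_contra hcon
            exact haE (Finset.mem_filter.2 ⟨ha, hpos, hcon⟩)
          obtain ⟨hfin, hrk⟩ := famExt_finite W d hWd (mT (D := D) (f 0 (sh (h 0) a)) T₀)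
          have h5 := h2 (fun i => f i.succ) (fun i => hf _) _ hfin hrk
          refine le_trans ?_ h5
          apply Nat.cast_le.2
          apply Finset.card_le_card
          intro m hm
          rw [Finset.mem_filter] at hm ⊢
          refine ⟨hm.1, fun j => ?_, fun hgood => hm.2.2 ?_⟩
          · have := hm.2.1 j.succ
            rwa [Fin.cons_succ] at this
          · have h6 := GoodT.cons hT₀ h₀ hgood
            convert h6 using 1
            funext i
            refine Fin.cases ?_ (fun j => ?_) i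
            · simp
            · simp
        · rw [Finset.filter_false_of_mem]
          · simp only [Finset.card_empty, Nat.cast_zero]
            positivity
          · intro m _ hm
            have := hm.1 0
            rw [Fin.cons_zero] at this
            exact hpos this)
    have h5 : C₁ * (piN N / Real.log (Real.log N)) * ((PN N).card : ℝ) ^ k +
        (PN N).card * (C₂ * ((piN N : ℝ) ^ k / Real.log (Real.log N))) =
        (C₁ + C₂) * ((piN N : ℝ) ^ (k + 1) / Real.log (Real.log N)) := by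
      rw [card_PN, pow_succ]
      ring
    rw [h5] at h4
    exact h4

end Pool.Agent.K3h28.SP
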